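import Pool.Agent.Helper33.LMA.Low0

/-!
# LMA (MP_fb29e9_nt): the asymptotic formula of the moments from the limit law, for any function; the error at the centre `0`
-/

open MeasureTheory Real Set Filter Topology

set_option autoImplicit false

namespace Pool.Agent.Helper33.LMA

open Pool.Agent.Helper22.AE
open Pool.Agent.Helper22.AC (cntc)
open Pool.Agent.Helper22.OV (shf)
open Pool.Agent.Helper92.LA (dl fdet_dl lcnt)
open Pool.Agent.Helper22.LP (Fr fdet Hf Hf_isSupp)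
open Pool.Agent.Helper64.LMA (BlkAll)

/-- the asymptotic formula from the law -/
theorem asym_of_law {U : ℝ → ℝ} {P : ℝ} (hU : Measurable U) (hb : ∀ Y : ℝ, ∃ C : ℝ, ∀ R ∈ Icc 1 Y, |U R| ≤ C) (h : Law U P)
    {p : ℝ} (hp0 : 0 < p) (hpP : p < P) :
    ∃ M : ℝ, 0 < M ∧ Tendsto (fun X : ℝ => (∫ R in Icc 1 X, |U R| ^ p) / X ^ (1 + p / 2)) atTop (𝓝 M) := by
  obtain ⟨ν, hν, hy, hlaw⟩ := h
  have hφ : Continuous (fun y : ℝ => |y| ^ p) := continuous_abs.rpow_const fun _ => Or.inr hp0.le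
  obtain ⟨hi, hlim⟩ := hlaw (fun y => |y| ^ p) hφ p hp0.le hpP 1 (fun y => by
    rw [one_mul, abs_of_nonneg (Real.rpow_nonneg (abs_nonneg _) _)]
    exact Real.rpow_le_rpow (abs_nonneg _) (by linarith [abs_nonneg y]) hp0.le)
  obtain ⟨m, hm⟩ : ∃ m : ℝ, m = ∫ y, |y| ^ p ∂ν := ⟨_, rfl⟩
  rw [← hm] at hlim
  have hm0 : 0 < m := by
    rw [hm]
    rcases lt_or_eq_of_le (integral_nonneg (μ := ν) (f := fun y : ℝ => |y| ^ p) fun y => Real.rpow_nonneg (abs_nonneg _) _) with h | h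
    · exact h
    · exfalso
      have h5 := (integral_eq_zero_iff_of_nonneg (fun y => Real.rpow_nonneg (abs_nonneg _) _) hi).1 h.symm
      have h6 : (fun y : ℝ => |y|) =ᵐ[ν] fun _ => 0 := by
        filter_upwards [h5] with y hy
        have h7 : |y| ^ p = 0 := hy
        exact ((Real.rpow_eq_zero (abs_nonneg y) hp0.ne').1 h7)
      rw [integral_congr_ae h6, integral_zero] at hy
      exact lt_irrefl _ hy
  obtain ⟨F, hF⟩ : ∃ F : ℝ → ℝ, F = fun R => |U R / sqrt R| ^ p := ⟨_, rfl⟩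
  have hF0 : ∀ R, 0 ≤ F R := fun R => by
    rw [hF]
    exact Real.rpow_nonneg (abs_nonneg _) _
  have hFm : Measurable F := by
    rw [hF]
    exact hφ.measurable.comp (hU.div (by fun_prop))
  have hFi : ∀ X : ℝ, IntegrableOn F (Icc 1 X) := by
    intro X
    obtain ⟨C, hC⟩ := hb X
    have : IsFiniteMeasure (volume.restrict (Icc 1 X)) := ⟨by
      rw [Measure.restrict_apply_univ]
      exact measure_Icc_lt_top⟩
    refine Integrable.of_bound hFm.aestronglyMeasurable (C ^ p) ?_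
    rw [ae_restrict_iff' measurableSet_Icc]
    refine Eventually.of_forall fun R hR => ?_
    rw [Real.norm_eq_abs, abs_of_nonneg (hF0 R), hF]
    refine Real.rpow_le_rpow (abs_nonneg _) ?_ hp0.le
    have hs : 1 ≤ sqrt R := Real.one_le_sqrt.2 hR.1
    rw [abs_div, abs_of_nonneg (by linarith : (0 : ℝ) ≤ sqrt R)]
    exact (div_le_self (abs_nonneg _) hs).trans (hC R hR)
  have key := Pool.Agent.Helper81.MM.abel_mean (I := Unit) (F := fun _ => F) (fun _ R => hF0 R) (fun _ X => hFi X) (m := m)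
    (by
      intro d hd
      obtain ⟨X₀, h1, h2⟩ := hlim d hd
      refine ⟨X₀, h1, fun X hX _ => ?_⟩
      have := h2 X hX
      rw [hF]
      exact this)
    (fun Y => ⟨∫ R in Icc 1 Y, F R, fun _ => le_rfl⟩) (q := p / 2) (by positivity)
  refine ⟨m / (1 + p / 2), by positivity, ?_⟩
  have e2 : ∀ X : ℝ, ∫ R in Icc 1 X, |U R| ^ p = ∫ R in Icc 1 X, R ^ (p / 2) * F R := by
    intro X
    refine setIntegral_congr_fun measurableSet_Icc fun R hR => ?_
    have hR0 : 0 < R := by linarith [hR.1]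
    have hs : 0 < sqrt R := Real.sqrt_pos.2 hR0
    have e : R ^ (p / 2) = sqrt R ^ p := by
      rw [Real.sqrt_eq_rpow, ← Real.rpow_mul hR0.le]
      congr 1
      ring
    simp only [hF]
    rw [e, ← Real.mul_rpow hs.le (abs_nonneg _), abs_div, abs_of_pos hs, mul_div_cancel₀ _ hs.ne']
  simp only [e2]
  rw [Metric.tendsto_atTop]
  intro d hd
  obtain ⟨X₀, -, h2⟩ := key (d / 2) (by positivity)
  refine ⟨X₀, fun X hX => ?_⟩
  rw [Real.dist_eq]
  exact (h2 X hX ()).trans_lt (by linarith)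

/-- the error at a fixed centre of any lattice is measurable and locally bounded -/
theorem okU_lat {H : ℝ → ℝ} (h2 : ContDiff ℝ 2 H) (hp : Function.Periodic H (2 * π)) (hr : ∀ t, 0 < H t + deriv (deriv H) t)
    {ab : Fr} (hab : fdet ab ≠ 0) (c : ℝ × ℝ) :
    Measurable (fun R : ℝ => lcnt ab H c R - area H * R ^ 2 / abs (fdet ab)) ∧
      ∀ Y : ℝ, ∃ C : ℝ, ∀ R ∈ Icc 1 Y, |lcnt ab H c R - area H * R ^ 2 / abs (fdet ab)| ≤ C := by
  obtain ⟨v, hv⟩ := Pool.Agent.Helper22.OV.exists_shift h2 hp hr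
  have hdl : fdet (dl ab) ≠ 0 := by
    rw [fdet_dl hab]
    positivity
  have hS := Hf_isSupp hv hdl
  have h5 := ep_ok hS.smooth hS.per hS.rho_pos
    ((dl ab).1.1 * c.1 + (dl ab).1.2 * c.2, (dl ab).2.1 * c.1 + (dl ab).2.2 * c.2)
    ((dl ab).1.1 * v.1 + (dl ab).1.2 * v.2, (dl ab).2.1 * v.1 + (dl ab).2.2 * v.2)
  have e : (fun R => lcnt ab H c R - area H * R ^ 2 / abs (fdet ab)) = Ep (Hf (shf H v) (dl ab))
      ((dl ab).1.1 * c.1 + (dl ab).1.2 * c.2, (dl ab).2.1 * c.1 + (dl ab).2.2 * c.2)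
      ((dl ab).1.1 * v.1 + (dl ab).1.2 * v.2, (dl ab).2.1 * v.1 + (dl ab).2.2 * v.2) := by
    funext R
    rw [← lcnt_shf H ab v c R, ← Pool.Agent.Helper22.OV.area_shf (H := H) v, err_dl_s hv.per hab]
    unfold Ep
    congr 3 <;> ring
  rw [e]
  refine ⟨h5.1, fun Y => ?_⟩
  obtain ⟨C, hC⟩ := h5.2 Y
  refine ⟨C, fun R hR => ?_⟩
  have h6 := congrFun e R
  rw [h6]
  exact hC R hR

/-- for one lattice: the asymptotic formula at the centre `c` from the law -/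
theorem asym_lat {H : ℝ → ℝ} (h2 : ContDiff ℝ 2 H) (hp : Function.Periodic H (2 * π)) (hr : ∀ t, 0 < H t + deriv (deriv H) t)
    {ab : Fr} (hab : fdet ab ≠ 0) {c : ℝ × ℝ} {P : ℝ} (h : Law (fun R => lcnt ab H c R - area H * R ^ 2 / abs (fdet ab)) P)
    {p : ℝ} (hp0 : 0 < p) (hpP : p < P) :
    ∃ M : ℝ, 0 < M ∧ Tendsto (fun X : ℝ => (∫ R in Icc 1 X, |lcnt ab H c R - area H * R ^ 2 / abs (fdet ab)| ^ p) / X ^ (1 + p / 2)) atTop (𝓝 M) :=
  asym_of_law (okU_lat h2 hp hr hab c).1 (okU_lat h2 hp hr hab c).2 h hp0 hpP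

/-- almost every lattice: the asymptotic formulas at the centre `0` -/
theorem asym0_of {H : ℝ → ℝ} (h2 : ContDiff ℝ 2 H) (hp : Function.Periodic H (2 * π)) (hr : ∀ t, 0 < H t + deriv (deriv H) t) {q P : ℝ} (hq : 2 ≤ q)
    (hqP : q < P) (h : ∀ v : ℝ × ℝ, IsSupp (shf H v) → ∀ᵐ f : Fr, 0 < fdet f → BlkAll (Hf (shf H v) f) q P) :
    ∀ᵐ ab : Fr, fdet ab ≠ 0 ∧ ∀ p : ℝ, 0 < p → p < P → ∃ M : ℝ, 0 < M ∧
      Tendsto (fun X : ℝ => (∫ R in Icc 1 X, |lcnt ab H 0 R - area H * R ^ 2 / abs (fdet ab)| ^ p) / X ^ (1 + p / 2)) atTop (𝓝 M) := by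
  filter_upwards [law0_of h2 hp hr hq hqP h] with ab h1
  exact ⟨h1.1, fun p hp0 hpP => asym_lat h2 hp hr h1.1 h1.2 hp0 hpP⟩

end Pool.Agent.Helper33.LMA
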