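import Pool.Agent.Helper33.LMA.X5

/-!
# LMA (MP_fb29e9_nt): the limit law of the largest error, over growth bounds of real orders `s < P`
(the construction of the measure adapted from helper77's `LW.Law5`)
-/

open MeasureTheory Real Set Filter Topology CompactlySupported

set_option autoImplicit false

namespace Pool.Agent.Helper33.LMA

open Pool.Agent.Helper22.AE
open Pool.Agent.Helper22.AC (cntc)
open Pool.Agent.Helper22.WC (SupE LimS)
open Pool.Agent.Helper92.LW (cut)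

/-- `S R / √R` has a limit law for `R` uniform in `[X, 2X]`, and its moments of the orders less than `P` converge -/
def Law (S : ℝ → ℝ) (P : ℝ) : Prop :=
  ∃ ν : Measure ℝ, IsProbabilityMeasure ν ∧ 0 < ∫ y, |y| ∂ν ∧
    ∀ φ : ℝ → ℝ, Continuous φ → ∀ p : ℝ, 0 ≤ p → p < P → ∀ A : ℝ, (∀ y, |φ y| ≤ A * (1 + |y|) ^ p) →
      Integrable φ ν ∧ ∀ d : ℝ, 0 < d → ∃ X₀ : ℝ, 1 ≤ X₀ ∧ ∀ X : ℝ, X₀ ≤ X →
        |X⁻¹ * (∫ R in Icc X (2 * X), φ (S R / sqrt R)) - ∫ y, φ y ∂ν| ≤ d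

/-- continuous functions of growth less than `P` -/
def PG (P : ℝ) (φ : ℝ → ℝ) : Prop :=
  Continuous φ ∧ ∃ A p : ℝ, 0 ≤ A ∧ 0 ≤ p ∧ p < P ∧ ∀ y, |φ y| ≤ A * (1 + |y|) ^ p

lemma one_le_y (y : ℝ) : (1 : ℝ) ≤ 1 + |y| := by linarith [abs_nonneg y]

lemma y_pos (y : ℝ) : (0 : ℝ) < 1 + |y| := by linarith [abs_nonneg y]

lemma A_nn {φ : ℝ → ℝ} {A p : ℝ} (h : ∀ y, |φ y| ≤ A * (1 + |y|) ^ p) : 0 ≤ A := by
  have h0 := h 0
  rw [abs_zero, add_zero, Real.one_rpow, mul_one] at h0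
  exact (abs_nonneg _).trans h0

lemma pg_bdd {P : ℝ} (hP : 0 < P) {φ : ℝ → ℝ} (hφ : Continuous φ) {B : ℝ} (h : ∀ y, |φ y| ≤ B) : PG P φ :=
  ⟨hφ, B, 0, (abs_nonneg _).trans (h 0), le_rfl, hP, fun y => by rw [Real.rpow_zero, mul_one]; exact h y⟩

lemma pg_const {P : ℝ} (hP : 0 < P) (a : ℝ) : PG P (fun _ => a) := pg_bdd hP continuous_const (B := |a|) fun _ => le_rfl

lemma pg_add {P : ℝ} {φ ψ : ℝ → ℝ} (h1 : PG P φ) (h2 : PG P ψ) : PG P (fun y => φ y + ψ y) := by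
  obtain ⟨c1, A, q, hA0, hq0, hqP, hA⟩ := h1
  obtain ⟨c2, B, r, hB0, hr0, hrP, hB⟩ := h2
  refine ⟨c1.add c2, A + B, max q r, add_nonneg hA0 hB0, le_max_of_le_left hq0, max_lt hqP hrP, fun y => ?_⟩
  have e1 : A * (1 + |y|) ^ q ≤ A * (1 + |y|) ^ (max q r) :=
    mul_le_mul_of_nonneg_left (Real.rpow_le_rpow_of_exponent_le (one_le_y y) (le_max_left _ _)) hA0
  have e2 : B * (1 + |y|) ^ r ≤ B * (1 + |y|) ^ (max q r) :=
    mul_le_mul_of_nonneg_left (Real.rpow_le_rpow_of_exponent_le (one_le_y y) (le_max_right _ _)) hB0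
  have := abs_add_le (φ y) (ψ y)
  have := hA y
  have := hB y
  rw [add_mul]
  linarith

lemma pg_smul {P : ℝ} {φ : ℝ → ℝ} (a : ℝ) (h : PG P φ) : PG P (fun y => a * φ y) := by
  obtain ⟨c, A, q, hA0, hq0, hqP, hA⟩ := h
  refine ⟨continuous_const.mul c, |a| * A, q, mul_nonneg (abs_nonneg _) hA0, hq0, hqP, fun y => ?_⟩
  rw [abs_mul, mul_assoc]
  exact mul_le_mul_of_nonneg_left (hA y) (abs_nonneg _)

lemma pg_cut {P : ℝ} {φ : ℝ → ℝ} (h : PG P φ) (K : ℕ) : PG P (fun y => φ y * cut K y) := by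
  obtain ⟨c, A, q, hA0, hq0, hqP, hA⟩ := h
  refine ⟨c.mul (cut_cont K), A, q, hA0, hq0, hqP, fun y => ?_⟩
  rw [abs_mul, abs_of_nonneg (cut_nonneg K y)]
  exact (mul_le_of_le_one_right (abs_nonneg _) (cut_le_one K y)).trans (hA y)

lemma pg_pow {P p : ℝ} (hp0 : 0 ≤ p) (hpP : p < P) : PG P (fun y => (1 + |y|) ^ p) := by
  refine ⟨(continuous_const.add continuous_abs).rpow_const fun y => Or.inl (y_pos y).ne', 1, p, zero_le_one, hp0, hpP, fun y => ?_⟩
  rw [one_mul, abs_of_nonneg (Real.rpow_nonneg (y_pos y).le _)]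

lemma pg_apow {P p : ℝ} (hp0 : 0 ≤ p) (hpP : p < P) : PG P (fun y => |y| ^ p) := by
  refine ⟨continuous_abs.rpow_const fun _ => Or.inr hp0, 1, p, zero_le_one, hp0, hpP, fun y => ?_⟩
  rw [one_mul, abs_of_nonneg (Real.rpow_nonneg (abs_nonneg _) _)]
  exact Real.rpow_le_rpow (abs_nonneg _) (by linarith [abs_nonneg y]) hp0

lemma c_supp (K : ℕ) : HasCompactSupport (cut K) := by
  refine HasCompactSupport.intro (isCompact_Icc : IsCompact (Icc (-(2 * ((K : ℝ) + 1))) (2 * ((K : ℝ) + 1)))) fun y hy => ?_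
  refine cut_eq_zero ?_
  by_contra h
  push Not at h
  exact hy (abs_le.1 h.le)

lemma c_mono (y : ℝ) : Monotone fun K : ℕ => cut K y := by
  intro K K' h
  have hK : (0 : ℝ) < (K : ℝ) + 1 := by positivity
  have h' : (K : ℝ) + 1 ≤ (K' : ℝ) + 1 := by
    have : (K : ℝ) ≤ K' := by exact_mod_cast h
    linarith
  have h1 : |y| / ((K' : ℝ) + 1) ≤ |y| / ((K : ℝ) + 1) := div_le_div_of_nonneg_left (abs_nonneg y) hK h'
  change cut K y ≤ cut K' y
  unfold cut
  exact max_le_max le_rfl (min_le_min le_rfl (by linarith))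

/-- the tail of a function of growth `p`, against `|y| ^ s`, `p < s` -/
theorem tail_pt {φ : ℝ → ℝ} {A p s : ℝ} (hA0 : 0 ≤ A) (hp0 : 0 ≤ p) (hps : p < s) (hA : ∀ y, |φ y| ≤ A * (1 + |y|) ^ p) (K : ℕ) (y : ℝ) :
    |φ y * cut K y - φ y| ≤ A * 2 ^ p * ((K : ℝ) + 1) ^ (p - s) * |y| ^ s := by
  have hK0 : (0 : ℝ) < (K : ℝ) + 1 := by positivity
  rcases le_total |y| ((K : ℝ) + 1) with h | h
  · rw [cut_eq_one h, mul_one, sub_self, abs_zero]
    exact mul_nonneg (mul_nonneg (mul_nonneg hA0 (Real.rpow_nonneg zero_le_two _)) (Real.rpow_nonneg hK0.le _))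
      (Real.rpow_nonneg (abs_nonneg _) _)
  · have hy1 : 0 < |y| := lt_of_lt_of_le hK0 h
    have hy2 : 1 ≤ |y| := le_trans (by linarith [Nat.cast_nonneg (α := ℝ) K]) h
    have e : φ y * cut K y - φ y = -(φ y * (1 - cut K y)) := by ring
    have h4 := cut_le_one K y
    have h5 := cut_nonneg K y
    rw [e, abs_neg, abs_mul, abs_of_nonneg (by linarith : 0 ≤ 1 - cut K y)]
    have h6 : |y| ^ p = |y| ^ (p - s) * |y| ^ s := by
      rw [← Real.rpow_add hy1]
      congr 1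
      ring
    have h7 : |y| ^ (p - s) ≤ ((K : ℝ) + 1) ^ (p - s) := Real.rpow_le_rpow_of_nonpos hK0 h (by linarith)
    have h8 : (1 + |y|) ^ p ≤ 2 ^ p * |y| ^ p := by
      rw [← Real.mul_rpow zero_le_two (abs_nonneg _)]
      exact Real.rpow_le_rpow (y_pos y).le (by linarith) hp0
    have hs0 : 0 ≤ |y| ^ s := Real.rpow_nonneg hy1.le _
    calc |φ y| * (1 - cut K y) ≤ |φ y| * 1 := mul_le_mul_of_nonneg_left (by linarith) (abs_nonneg _)
      _ ≤ A * (1 + |y|) ^ p := by rw [mul_one]; exact hA y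
      _ ≤ A * (2 ^ p * |y| ^ p) := mul_le_mul_of_nonneg_left h8 hA0
      _ = A * 2 ^ p * (|y| ^ (p - s) * |y| ^ s) := by rw [h6]; ring
      _ ≤ A * 2 ^ p * (((K : ℝ) + 1) ^ (p - s) * |y| ^ s) :=
          mul_le_mul_of_nonneg_left (mul_le_mul_of_nonneg_right h7 hs0) (mul_nonneg hA0 (Real.rpow_nonneg zero_le_two _))
      _ = A * 2 ^ p * ((K : ℝ) + 1) ^ (p - s) * |y| ^ s := by ring

lemma tend_K {p s : ℝ} (hps : p < s) (C : ℝ) : Tendsto (fun K : ℕ => C * ((K : ℝ) + 1) ^ (p - s)) atTop (𝓝 0) := by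
  have h1 : Tendsto (fun K : ℕ => ((K : ℝ) + 1) ^ (-(s - p))) atTop (𝓝 0) :=
    (tendsto_rpow_neg_atTop (by linarith : 0 < s - p)).comp
      (tendsto_atTop_add_const_right _ _ tendsto_natCast_atTop_atTop)
  have h2 : Tendsto (fun K : ℕ => C * ((K : ℝ) + 1) ^ (-(s - p))) atTop (𝓝 (C * 0)) := h1.const_mul C
  rw [mul_zero] at h2
  refine h2.congr fun K => ?_
  congr 2
  ring

/-- a positive normalized functional on the continuous functions of growth less than `P` is given by a probability measure -/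
theorem exists_of {P : ℝ} (hP : 0 < P) {m : (ℝ → ℝ) → ℝ} (hadd : ∀ φ ψ, PG P φ → PG P ψ → m (fun y => φ y + ψ y) = m φ + m ψ)
    (hmul : ∀ (a : ℝ) φ, PG P φ → m (fun y => a * φ y) = a * m φ)
    (hmono : ∀ φ ψ, PG P φ → PG P ψ → (∀ y, φ y ≤ ψ y) → m φ ≤ m ψ)
    (hone : m (fun _ => 1) = 1) :
    ∃ ν : Measure ℝ, IsProbabilityMeasure ν ∧ ∀ φ, PG P φ → Integrable φ ν ∧ ∫ y, φ y ∂ν = m φ := by
  have hzero : m (fun _ => 0) = 0 := by
    have h := hmul 0 (fun _ => 1) (pg_const hP 1)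
    simpa using h
  have pgc : ∀ f : C_c(ℝ, ℝ), PG P f := by
    intro f
    obtain ⟨C, hC⟩ := f.hasCompactSupport.exists_bound_of_continuous f.continuous
    exact pg_bdd hP f.continuous hC
  let Λ₀ : C_c(ℝ, ℝ) →ₗ[ℝ] ℝ :=
    { toFun := fun f => m f
      map_add' := fun f g => hadd f g (pgc f) (pgc g)
      map_smul' := fun a f => hmul a f (pgc f) }
  let Λ : C_c(ℝ, ℝ) →ₚ[ℝ] ℝ := PositiveLinearMap.mk₀ Λ₀ fun f hf => by
    change 0 ≤ m f
    rw [← hzero]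
    exact hmono _ _ (pg_const hP 0) (pgc f) fun y => hf y
  set ν : Measure ℝ := RealRMK.rieszMeasure Λ with hν
  have hνr : ν.Regular := RealRMK.regular_rieszMeasure Λ
  have hint : ∀ f : C_c(ℝ, ℝ), ∫ y, f y ∂ν = m f := fun f => RealRMK.integral_rieszMeasure Λ f
  -- the cut functions
  have hK : ∀ φ, PG P φ → ∀ K : ℕ, Integrable (fun y => φ y * cut K y) ν ∧
      ∫ y, φ y * cut K y ∂ν = m (fun y => φ y * cut K y) := by
    intro φ hφ K
    have hc : Continuous (fun y => φ y * cut K y) := hφ.1.mul (cut_cont K)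
    have hs : HasCompactSupport (fun y => φ y * cut K y) := (c_supp K).mul_left
    refine ⟨hc.integrable_of_hasCompactSupport hs, ?_⟩
    exact hint ⟨⟨fun y => φ y * cut K y, hc⟩, hs⟩
  have happ : ∀ φ, PG P φ → Tendsto (fun K : ℕ => m (fun y => φ y * cut K y)) atTop (𝓝 (m φ)) := by
    intro φ hφ
    obtain ⟨hc, A, p, hA0, hp0, hpP, hA⟩ := id hφ
    obtain ⟨s, hps, hsP⟩ := exists_between hpP
    have hs0 : 0 ≤ s := hp0.trans hps.le
    have hB : PG P (fun y => |y| ^ s) := pg_apow hs0 hsP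
    have hpg : ∀ K : ℕ, PG P (fun y => φ y * cut K y) := fun K => pg_cut hφ K
    have hpg2 : ∀ K : ℕ, PG P (fun y => (A * 2 ^ p * ((K : ℝ) + 1) ^ (p - s)) * |y| ^ s) := fun K => pg_smul _ hB
    have key : ∀ K : ℕ, |m (fun y => φ y * cut K y) - m φ| ≤ (A * 2 ^ p * m (fun y => |y| ^ s)) * ((K : ℝ) + 1) ^ (p - s) := by
      intro K
      have d := fun y => tail_pt hA0 hp0 hps hA K y
      have h1 := hmono _ _ (hpg K) (pg_add hφ (hpg2 K)) fun y => by
        have := (abs_le.1 (d y)).2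
        linarith
      have h2 := hmono _ _ hφ (pg_add (hpg K) (hpg2 K)) fun y => by
        have := (abs_le.1 (d y)).1
        linarith
      rw [hadd _ _ hφ (hpg2 K), hmul _ _ hB] at h1
      rw [hadd _ _ (hpg K) (hpg2 K), hmul _ _ hB] at h2
      rw [abs_le]
      constructor <;> nlinarith
    rw [tendsto_iff_dist_tendsto_zero]
    exact squeeze_zero (fun _ => dist_nonneg) (fun K => by rw [Real.dist_eq]; exact key K) (tend_K hps _)
  have hlin : ∀ g, PG P g → (∀ y, 0 ≤ g y) → ∫⁻ y, ENNReal.ofReal (g y) ∂ν = ENNReal.ofReal (m g) := by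
    intro g hg h0
    have h1 : Tendsto (fun K : ℕ => ∫⁻ y, ENNReal.ofReal (g y * cut K y) ∂ν) atTop (𝓝 (∫⁻ y, ENNReal.ofReal (g y) ∂ν)) := by
      refine lintegral_tendsto_of_tendsto_of_monotone
        (fun K => (ENNReal.measurable_ofReal.comp (hg.1.mul (cut_cont K)).measurable).aemeasurable)
        (ae_of_all _ fun y => ?_) (ae_of_all _ fun y => ?_)
      · intro K K' h
        exact ENNReal.ofReal_le_ofReal (mul_le_mul_of_nonneg_left (c_mono y h) (h0 y))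
      · refine tendsto_const_nhds.congr' ?_
        obtain ⟨n, hn⟩ := exists_nat_ge |y|
        filter_upwards [eventually_ge_atTop n] with K hK
        have : (n : ℝ) ≤ K := by exact_mod_cast hK
        rw [cut_eq_one (K := K) (y := y) (by linarith), mul_one]
    have h2 : ∀ K : ℕ, ∫⁻ y, ENNReal.ofReal (g y * cut K y) ∂ν = ENNReal.ofReal (m (fun y => g y * cut K y)) := by
      intro K
      rw [← (hK g hg K).2, ofReal_integral_eq_lintegral_ofReal (hK g hg K).1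
        (ae_of_all _ fun y => mul_nonneg (h0 y) (cut_nonneg K y))]
    simp only [h2] at h1
    exact tendsto_nhds_unique h1 ((ENNReal.continuous_ofReal.tendsto _).comp (happ g hg))
  have hpos : ∀ g, PG P g → (∀ y, 0 ≤ g y) → Integrable g ν ∧ ∫ y, g y ∂ν = m g := by
    intro g hg h0
    have hm0 : 0 ≤ m g := by
      rw [← hzero]
      exact hmono _ _ (pg_const hP 0) hg h0
    refine ⟨⟨hg.1.aestronglyMeasurable, ?_⟩, ?_⟩
    · rw [hasFiniteIntegral_iff_ofReal (ae_of_all _ h0), hlin g hg h0]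
      exact ENNReal.ofReal_lt_top
    · rw [integral_eq_lintegral_of_nonneg_ae (ae_of_all _ h0) hg.1.aestronglyMeasurable, hlin g hg h0,
        ENNReal.toReal_ofReal hm0]
  refine ⟨ν, ⟨?_⟩, fun φ hφ => ?_⟩
  · have h := hlin (fun _ => 1) (pg_const hP 1) fun _ => zero_le_one
    rw [hone, ENNReal.ofReal_one, lintegral_one] at h
    exact h
  · obtain ⟨c, A, q, hA0, hq0, hqP, hA⟩ := id hφ
    have hg : PG P (fun y => A * (1 + |y|) ^ q) := pg_smul A (pg_pow hq0 hqP)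
    have hg0 : ∀ y, 0 ≤ A * (1 + |y|) ^ q := fun y => mul_nonneg hA0 (Real.rpow_nonneg (y_pos y).le _)
    have hφg : PG P (fun y => φ y + A * (1 + |y|) ^ q) := pg_add hφ hg
    obtain ⟨i1, e1⟩ := hpos _ hg hg0
    obtain ⟨i2, e2⟩ := hpos _ hφg fun y => by linarith [(abs_le.1 (hA y)).1]
    have i3 : Integrable φ ν := by
      have := i2.sub i1
      refine this.congr (ae_of_all _ fun y => ?_)
      simp
    refine ⟨i3, ?_⟩
    rw [hadd _ _ hφ hg, integral_add i3 i1, e1] at e2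
    linarith

/-- the means of the continuous functions of growth less than `s` converge -/
theorem lim_gr {H : ℝ → ℝ} (hO : Ok H)
    (hid : ∀ p : ℝ, 0 < p → ∀ R : ℝ, ⨆ c : ℝ × ℝ, ENNReal.ofReal (|cntc H c R - area H * R ^ 2| ^ p) = ENNReal.ofReal (SupE H R ^ p))
    (hS : ∀ φ : ℝ → ℝ, Continuous φ → HasCompactSupport φ → LimS H φ) {s : ℝ} (hG : Gr H s)
    {φ : ℝ → ℝ} (hφ : Continuous φ) {A p : ℝ} (hA0 : 0 ≤ A) (hp0 : 0 ≤ p) (hps : p < s) (hA : ∀ y, |φ y| ≤ A * (1 + |y|) ^ p) : LimS H φ := by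
  have hs0 : 0 < s := lt_of_le_of_lt hp0 hps
  obtain ⟨C', hC'⟩ := hG
  obtain ⟨C, hCdef⟩ : ∃ C : ℝ, C = max C' 0 := ⟨_, rfl⟩
  have hC0 : 0 ≤ C := by rw [hCdef]; exact le_max_right _ _
  have hCC : C' ≤ C := by rw [hCdef]; exact le_max_left _ _
  have hC : ∀ X : ℝ, 1 ≤ X → ∫⁻ R in Icc X (2 * X), ⨆ c : ℝ × ℝ, ENNReal.ofReal (|cntc H c R - area H * R ^ 2| ^ s) ≤
      ENNReal.ofReal (C * X ^ (1 + s / 2)) := fun X hX =>
    (hC' X hX).trans (ENNReal.ofReal_le_ofReal (mul_le_mul_of_nonneg_right hCC (Real.rpow_nonneg (by linarith) _)))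
  have hcs : Continuous (fun y : ℝ => |y| ^ s) := continuous_abs.rpow_const fun _ => Or.inr hs0.le
  refine lim_of_approx fun ε hε => ?_
  obtain ⟨K, hK⟩ : ∃ K : ℕ, (A * 2 ^ p * C) * ((K : ℝ) + 1) ^ (p - s) ≤ ε / 2 := by
    obtain ⟨K, hK⟩ := ((tend_K hps (A * 2 ^ p * C)).eventually (gt_mem_nhds (half_pos hε))).exists
    exact ⟨K, hK.le⟩
  have hK0 : (0 : ℝ) < (K : ℝ) + 1 := by positivity
  have hψ : Continuous (fun y => φ y * cut K y) := hφ.mul (cut_cont K)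
  have htail : ∀ X : ℝ, 1 ≤ X → |mn H (fun y => φ y * cut K y) X - mn H φ X| ≤ ε / 2 := by
    intro X hX
    have hX0 : (0 : ℝ) < X := by linarith
    have h2 : |mn H (fun y => φ y * cut K y) X - mn H φ X| ≤ (A * 2 ^ p * ((K : ℝ) + 1) ^ (p - s)) * mn H (fun y => |y| ^ s) X := by
      unfold mn
      rw [← mul_sub, ← integral_sub (mn_int hO hX hψ) (mn_int hO hX hφ), abs_mul, abs_of_pos (inv_pos.2 hX0),
        mul_left_comm]
      refine mul_le_mul_of_nonneg_left ?_ (inv_pos.2 hX0).le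
      rw [← integral_const_mul]
      refine (abs_integral_le_integral_abs).trans ?_
      exact setIntegral_mono_on (mn_int hO hX (φ := fun y => |φ y * cut K y - φ y|) (hψ.sub hφ).abs)
        (mn_int hO hX (φ := fun y => (A * 2 ^ p * ((K : ℝ) + 1) ^ (p - s)) * |y| ^ s) (continuous_const.mul hcs))
        measurableSet_Icc fun R _ => tail_pt hA0 hp0 hps hA K _
    have h3 : 0 ≤ A * 2 ^ p * ((K : ℝ) + 1) ^ (p - s) :=
      mul_nonneg (mul_nonneg hA0 (Real.rpow_nonneg zero_le_two _)) (Real.rpow_nonneg hK0.le _)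
    calc |mn H (fun y => φ y * cut K y) X - mn H φ X| ≤ (A * 2 ^ p * ((K : ℝ) + 1) ^ (p - s)) * mn H (fun y => |y| ^ s) X := h2
      _ ≤ (A * 2 ^ p * ((K : ℝ) + 1) ^ (p - s)) * C := mul_le_mul_of_nonneg_left (mean_rpow_le hO hid hs0 hC0 hC hX) h3
      _ = (A * 2 ^ p * C) * ((K : ℝ) + 1) ^ (p - s) := by ring
      _ ≤ ε / 2 := hK
  obtain ⟨m, hm⟩ := hS _ hψ ((c_supp K).mul_left)
  obtain ⟨X₀, hX₀, h1⟩ := hm (ε / 2) (by positivity)
  refine ⟨m, X₀, hX₀, fun X hX => ?_⟩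
  have e1 := htail X (hX₀.trans hX)
  have e2 := h1 X hX
  change |mn H (fun y => φ y * cut K y) X - m| ≤ ε / 2 at e2
  rw [abs_le] at e1 e2 ⊢
  constructor <;> linarith [e1.1, e1.2, e2.1, e2.2]

/-- the limit law of the largest error -/
theorem law_of {H : ℝ → ℝ} (hH : ContDiff ℝ 2 H) (hp : Function.Periodic H (2 * π)) (hr : ∀ θ, 0 < H θ + deriv (deriv H) θ)
    (hS : ∀ φ : ℝ → ℝ, Continuous φ → HasCompactSupport φ → LimS H φ) {q P : ℝ} (hq : q < P) (hP1 : 1 < P)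
    (hG : ∀ s : ℝ, q ≤ s → s < P → Gr H s) (hLb : Lb H) : Law (SupE H) P := by
  classical
  obtain ⟨-, hloc, hmeas, hid⟩ := Pool.Agent.Helper60.WC.supE_facts hH hp hr
  have hO : Ok H := ⟨hmeas, hloc⟩
  have hP : 0 < P := by linarith
  have hL : ∀ φ, PG P φ → LimS H φ := fun φ hφ => by
    obtain ⟨c, A, p, hA0, hp0, hpP, hA⟩ := hφ
    obtain ⟨s, hs1, hs2⟩ := exists_between (max_lt hpP hq)
    exact lim_gr hO hid hS (hG s ((le_max_right _ _).trans hs1.le) hs2) c hA0 hp0 (lt_of_le_of_lt (le_max_left _ _) hs1) hA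
  let m : (ℝ → ℝ) → ℝ := fun φ => if hφ : PG P φ then (hL φ hφ).choose else 0
  have hm : ∀ φ, PG P φ → ∀ ε : ℝ, 0 < ε → ∃ X₀ : ℝ, 1 ≤ X₀ ∧ ∀ X : ℝ, X₀ ≤ X →
      |mn H φ X - m φ| ≤ ε := by
    intro φ hφ
    have e : m φ = (hL φ hφ).choose := dif_pos hφ
    rw [e]
    exact (hL φ hφ).choose_spec
  have ht : ∀ φ, PG P φ → Tendsto (fun X : ℝ => mn H φ X) atTop (𝓝 (m φ)) := by
    intro φ hφ
    rw [Metric.tendsto_atTop]
    intro ε hε
    obtain ⟨X₀, -, h1⟩ := hm φ hφ (ε / 2) (by positivity)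
    refine ⟨X₀, fun X hX => ?_⟩
    rw [Real.dist_eq]
    exact (h1 X hX).trans_lt (by linarith)
  obtain ⟨ν, hν, hνm⟩ : ∃ ν : Measure ℝ, IsProbabilityMeasure ν ∧ ∀ φ, PG P φ → Integrable φ ν ∧ ∫ y, φ y ∂ν = m φ := by
    refine exists_of hP (m := m) ?_ ?_ ?_ ?_
    · intro φ ψ h1 h2
      refine tendsto_nhds_unique (ht _ (pg_add h1 h2)) (((ht φ h1).add (ht ψ h2)).congr' ?_)
      filter_upwards [eventually_ge_atTop 1] with X hX
      unfold mn
      rw [integral_add (mn_int hO hX h1.1) (mn_int hO hX h2.1), mul_add]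
    · intro a φ h1
      refine tendsto_nhds_unique (ht _ (pg_smul a h1)) (((ht φ h1).const_mul a).congr' ?_)
      filter_upwards [eventually_ge_atTop 1] with X hX
      unfold mn
      rw [integral_const_mul]
      ring
    · intro φ ψ h1 h2 h3
      refine le_of_tendsto_of_tendsto (ht φ h1) (ht ψ h2) ?_
      filter_upwards [eventually_ge_atTop 1] with X hX
      unfold mn
      refine mul_le_mul_of_nonneg_left ?_ (inv_nonneg.2 (by linarith))
      exact setIntegral_mono_on (mn_int hO hX h1.1) (mn_int hO hX h2.1) measurableSet_Icc fun R _ => h3 _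
    · refine tendsto_nhds_unique (ht _ (pg_const hP 1)) (tendsto_const_nhds.congr' ?_)
      filter_upwards [eventually_ge_atTop 1] with X hX
      unfold mn
      rw [setIntegral_const, Measure.real, Real.volume_Icc, ENNReal.toReal_ofReal (by linarith), smul_eq_mul, mul_one]
      have : 2 * X - X = X := by ring
      rw [this, inv_mul_cancel₀ (by linarith)]
  refine ⟨ν, hν, ?_, fun φ hφ p hp0 hpP A hA => ?_⟩
  · obtain ⟨b, hb, X₀, hX₀, hlow⟩ := mean_low hO hid hLb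
    have h1 : PG P (fun y => |y|) := by
      have h2 := pg_apow (P := P) zero_le_one hP1
      simp only [Real.rpow_one] at h2
      exact h2
    have h2 : ∫ y, |y| ∂ν = m (fun y => |y|) := (hνm _ h1).2
    rw [h2]
    refine lt_of_lt_of_le hb (ge_of_tendsto (ht _ h1) ?_)
    filter_upwards [eventually_ge_atTop X₀] with X hX
    exact hlow X hX
  · have h1 : PG P φ := ⟨hφ, A, p, A_nn hA, hp0, hpP, hA⟩
    refine ⟨(hνm φ h1).1, ?_⟩
    rw [(hνm φ h1).2]
    exact hm φ h1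

end Pool.Agent.Helper33.LMA
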