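import Pool.Agent.Helper33.LMA.Law
import Pool.Agent.Helper99.WC.Sup
import Pool.Agent.Helper22.WC.LawS
import Pool.Agent.Helper60.MM.M8

/-!
# LMA (MP_fb29e9_nt): the limit law of the error at a fixed centre (the centre moves with constant velocity), over growth bounds
-/

open MeasureTheory Real Set Filter Topology CompactlySupported

set_option autoImplicit false

namespace Pool.Agent.Helper33.LMA

open Pool.Agent.Helper22.AE
open Pool.Agent.Helper22.AC (cntc)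
open Pool.Agent.Helper22.WC (SupE LimS)
open Pool.Agent.Helper92.LW (cut)
open Pool.Agent.Helper93.EX (Mx ak prim sn fJ)
open Pool.Agent.Helper99.WC (FJ FJ_coe FJ_cont line line_cont mean_torus_real)

/-- `U R / √R` has a limit law for `R` uniform in `[X, 2X]`, and its moments of the orders less than `P` converge -/
def LawU (U : ℝ → ℝ) (P : ℝ) : Prop :=
  ∃ ν : Measure ℝ, IsProbabilityMeasure ν ∧
    ∀ φ : ℝ → ℝ, Continuous φ → ∀ p : ℝ, 0 ≤ p → p < P → ∀ A : ℝ, (∀ y, |φ y| ≤ A * (1 + |y|) ^ p) →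
      Integrable φ ν ∧ ∀ d : ℝ, 0 < d → ∃ X₀ : ℝ, 1 ≤ X₀ ∧ ∀ X : ℝ, X₀ ≤ X →
        |X⁻¹ * (∫ R in Icc X (2 * X), φ (U R / sqrt R)) - ∫ y, φ y ∂ν| ≤ d

/-- the means of `φ (U R / √R)` converge -/
def LimU (U φ : ℝ → ℝ) : Prop :=
  ∃ m : ℝ, ∀ ε : ℝ, 0 < ε → ∃ X₀ : ℝ, 1 ≤ X₀ ∧ ∀ X : ℝ, X₀ ≤ X → |X⁻¹ * (∫ R in Icc X (2 * X), φ (U R / sqrt R)) - m| ≤ ε

/-- measurable and locally bounded -/
def OkU (U : ℝ → ℝ) : Prop := Measurable U ∧ ∀ Y : ℝ, ∃ C : ℝ, ∀ R ∈ Icc 1 Y, |U R| ≤ C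

/-- growth of real order `s` -/
def GrU (U : ℝ → ℝ) (s : ℝ) : Prop := ∃ C : ℝ, 0 ≤ C ∧ ∀ X : ℝ, 1 ≤ X → ∫ R in Icc X (2 * X), |U R| ^ s ≤ C * X ^ (1 + s / 2)

lemma u_bm {U : ℝ → ℝ} (hO : OkU U) {X : ℝ} (hX : 1 ≤ X) : BM X U := by
  obtain ⟨C, hC⟩ := hO.2 (2 * X)
  exact ⟨hO.1.aemeasurable, C, fun R hR => hC R ⟨hX.trans hR.1, hR.2⟩⟩

lemma un_bm {U : ℝ → ℝ} (hO : OkU U) {X : ℝ} (hX : 1 ≤ X) : BM X (fun R => U R / sqrt R) := by
  have h3 : BM X fun R => (sqrt R)⁻¹ := by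
    refine BM.cont (ContinuousOn.inv₀ continuous_sqrt.continuousOn fun R hR => ?_)
    have : 0 < R := by linarith [hR.1]
    positivity
  exact (u_bm hO hX).mul h3

/-- the mean -/
noncomputable def mu (U φ : ℝ → ℝ) (X : ℝ) : ℝ := X⁻¹ * (∫ R in Icc X (2 * X), φ (U R / sqrt R))

lemma mu_int {U : ℝ → ℝ} (hO : OkU U) {X : ℝ} (hX : 1 ≤ X)
    {φ : ℝ → ℝ} (hφ : Continuous φ) : IntegrableOn (fun R => φ (U R / sqrt R)) (Icc X (2 * X)) :=
  ((un_bm hO hX).comp hφ).int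

lemma limU_of_approx {U φ : ℝ → ℝ} (h : ∀ ε : ℝ, 0 < ε → ∃ m X₀ : ℝ, 1 ≤ X₀ ∧ ∀ X : ℝ, X₀ ≤ X → |mu U φ X - m| ≤ ε) : LimU U φ := by
  obtain ⟨m, hm⟩ := Pool.Agent.Helper92.LW.lim_of_approx (f := fun X _ => mu U φ X) fun ε hε => by
    obtain ⟨m, X₀, h1, h2⟩ := h ε hε
    exact ⟨m, X₀, h1, fun X hX _ => h2 X hX⟩
  refine ⟨m, fun ε hε => ?_⟩
  obtain ⟨X₀, hX₀, h1⟩ := hm ε hε
  exact ⟨X₀, hX₀, fun X hX => h1 X hX (0, 0)⟩

theorem mu_rpow_le {U : ℝ → ℝ} (hO : OkU U) {s : ℝ} (hs : 0 < s) {C : ℝ} (hC0 : 0 ≤ C)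
    (hC : ∀ X : ℝ, 1 ≤ X → ∫ R in Icc X (2 * X), |U R| ^ s ≤ C * X ^ (1 + s / 2)) {X : ℝ} (hX : 1 ≤ X) :
    mu U (fun y => |y| ^ s) X ≤ C := by
  have hX0 : (0 : ℝ) < X := by linarith
  have hcs : Continuous (fun y : ℝ => |y| ^ s) := continuous_abs.rpow_const fun _ => Or.inr hs.le
  have hE : BM X fun R => |U R| ^ s := (u_bm hO hX).comp hcs
  have h2 : ∫ R in Icc X (2 * X), |U R / sqrt R| ^ s ≤ ∫ R in Icc X (2 * X), (X ^ (s / 2))⁻¹ * |U R| ^ s := by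
    refine setIntegral_mono_on (mu_int hO hX (φ := fun y => |y| ^ s) hcs) (hE.int.const_mul _) measurableSet_Icc
      fun R hR => ?_
    have hR0 : 0 < R := by linarith [hR.1]
    have e : sqrt R ^ s = R ^ (s / 2) := by
      rw [Real.sqrt_eq_rpow, ← Real.rpow_mul hR0.le]
      congr 1
      ring
    rw [abs_div, abs_of_nonneg (sqrt_nonneg R), Real.div_rpow (abs_nonneg _) (sqrt_nonneg R), e, div_eq_inv_mul]
    refine mul_le_mul_of_nonneg_right ?_ (Real.rpow_nonneg (abs_nonneg _) _)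
    exact inv_anti₀ (by positivity) (Real.rpow_le_rpow hX0.le hR.1 (by positivity))
  rw [integral_const_mul] at h2
  unfold mu
  calc X⁻¹ * (∫ R in Icc X (2 * X), |U R / sqrt R| ^ s) ≤ X⁻¹ * ((X ^ (s / 2))⁻¹ * (C * X ^ (1 + s / 2))) := by
        refine mul_le_mul_of_nonneg_left (h2.trans ?_) (inv_pos.2 hX0).le
        exact mul_le_mul_of_nonneg_left (hC X hX) (by positivity)
    _ = C := by
        rw [Real.rpow_add hX0, Real.rpow_one]
        have h3 : 0 < X ^ (s / 2) := by positivity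
        field_simp

theorem limU_gr {U : ℝ → ℝ} (hO : OkU U)
    (hS : ∀ φ : ℝ → ℝ, Continuous φ → HasCompactSupport φ → LimU U φ) {s : ℝ} (hG : GrU U s)
    {φ : ℝ → ℝ} (hφ : Continuous φ) {A p : ℝ} (hA0 : 0 ≤ A) (hp0 : 0 ≤ p) (hps : p < s) (hA : ∀ y, |φ y| ≤ A * (1 + |y|) ^ p) : LimU U φ := by
  have hs0 : 0 < s := lt_of_le_of_lt hp0 hps
  obtain ⟨C, hC0, hC⟩ := hG
  have hcs : Continuous (fun y : ℝ => |y| ^ s) := continuous_abs.rpow_const fun _ => Or.inr hs0.le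
  refine limU_of_approx fun ε hε => ?_
  obtain ⟨K, hK⟩ : ∃ K : ℕ, (A * 2 ^ p * C) * ((K : ℝ) + 1) ^ (p - s) ≤ ε / 2 := by
    obtain ⟨K, hK⟩ := ((tend_K hps (A * 2 ^ p * C)).eventually (gt_mem_nhds (half_pos hε))).exists
    exact ⟨K, hK.le⟩
  have hK0 : (0 : ℝ) < (K : ℝ) + 1 := by positivity
  have hψ : Continuous (fun y => φ y * cut K y) := hφ.mul (cut_cont K)
  have htail : ∀ X : ℝ, 1 ≤ X → |mu U (fun y => φ y * cut K y) X - mu U φ X| ≤ ε / 2 := by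
    intro X hX
    have hX0 : (0 : ℝ) < X := by linarith
    have h2 : |mu U (fun y => φ y * cut K y) X - mu U φ X| ≤ (A * 2 ^ p * ((K : ℝ) + 1) ^ (p - s)) * mu U (fun y => |y| ^ s) X := by
      unfold mu
      rw [← mul_sub, ← integral_sub (mu_int hO hX hψ) (mu_int hO hX hφ), abs_mul, abs_of_pos (inv_pos.2 hX0),
        mul_left_comm]
      refine mul_le_mul_of_nonneg_left ?_ (inv_pos.2 hX0).le
      rw [← integral_const_mul]
      refine (abs_integral_le_integral_abs).trans ?_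
      exact setIntegral_mono_on (mu_int hO hX (φ := fun y => |φ y * cut K y - φ y|) (hψ.sub hφ).abs)
        (mu_int hO hX (φ := fun y => (A * 2 ^ p * ((K : ℝ) + 1) ^ (p - s)) * |y| ^ s) (continuous_const.mul hcs))
        measurableSet_Icc fun R _ => tail_pt hA0 hp0 hps hA K _
    have h3 : 0 ≤ A * 2 ^ p * ((K : ℝ) + 1) ^ (p - s) :=
      mul_nonneg (mul_nonneg hA0 (Real.rpow_nonneg zero_le_two _)) (Real.rpow_nonneg hK0.le _)
    calc |mu U (fun y => φ y * cut K y) X - mu U φ X| ≤ (A * 2 ^ p * ((K : ℝ) + 1) ^ (p - s)) * mu U (fun y => |y| ^ s) X := h2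
      _ ≤ (A * 2 ^ p * ((K : ℝ) + 1) ^ (p - s)) * C := mul_le_mul_of_nonneg_left (mu_rpow_le hO hs0 hC0 hC hX) h3
      _ = (A * 2 ^ p * C) * ((K : ℝ) + 1) ^ (p - s) := by ring
      _ ≤ ε / 2 := hK
  obtain ⟨m, hm⟩ := hS _ hψ ((c_supp K).mul_left)
  obtain ⟨X₀, hX₀, h1⟩ := hm (ε / 2) (by positivity)
  refine ⟨m, X₀, hX₀, fun X hX => ?_⟩
  have e1 := htail X (hX₀.trans hX)
  have e2 := h1 X hX
  change |mu U (fun y => φ y * cut K y) X - m| ≤ ε / 2 at e2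
  rw [abs_le] at e1 e2 ⊢
  constructor <;> linarith [e1.1, e1.2, e2.1, e2.2]

/-- the limit law of a function -/
theorem lawU_of {U : ℝ → ℝ} (hO : OkU U)
    (hS : ∀ φ : ℝ → ℝ, Continuous φ → HasCompactSupport φ → LimU U φ) {q P : ℝ} (hq : q < P) (hP : 0 < P)
    (hG : ∀ s : ℝ, q ≤ s → s < P → GrU U s) : LawU U P := by
  classical
  have hL : ∀ φ, PG P φ → LimU U φ := fun φ hφ => by
    obtain ⟨c, A, p, hA0, hp0, hpP, hA⟩ := hφ
    obtain ⟨s, hs1, hs2⟩ := exists_between (max_lt hpP hq)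
    exact limU_gr hO hS (hG s ((le_max_right _ _).trans hs1.le) hs2) c hA0 hp0 (lt_of_le_of_lt (le_max_left _ _) hs1) hA
  let m : (ℝ → ℝ) → ℝ := fun φ => if hφ : PG P φ then (hL φ hφ).choose else 0
  have hm : ∀ φ, PG P φ → ∀ ε : ℝ, 0 < ε → ∃ X₀ : ℝ, 1 ≤ X₀ ∧ ∀ X : ℝ, X₀ ≤ X →
      |mu U φ X - m φ| ≤ ε := by
    intro φ hφ
    have e : m φ = (hL φ hφ).choose := dif_pos hφ
    rw [e]
    exact (hL φ hφ).choose_spec
  have ht : ∀ φ, PG P φ → Tendsto (fun X : ℝ => mu U φ X) atTop (𝓝 (m φ)) := by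
    intro φ hφ
    rw [Metric.tendsto_atTop]
    intro ε hε
    obtain ⟨X₀, -, h1⟩ := hm φ hφ (ε / 2) (by positivity)
    refine ⟨X₀, fun X hX => ?_⟩
    rw [Real.dist_eq]
    exact (h1 X hX).trans_lt (by linarith)
  obtain ⟨ν, hν, hνm⟩ : ∃ ν : Measure ℝ, IsProbabilityMeasure ν ∧ ∀ φ, PG P φ → Integrable φ ν ∧ ∫ y, φ y ∂ν = m φ := by
    refine exists_of hP (m := m) ?_ ?_ ?_ ?_
    · intro φ ψ h1 h2
      refine tendsto_nhds_unique (ht _ (pg_add h1 h2)) (((ht φ h1).add (ht ψ h2)).congr' ?_)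
      filter_upwards [eventually_ge_atTop 1] with X hX
      unfold mu
      rw [integral_add (mu_int hO hX h1.1) (mu_int hO hX h2.1), mul_add]
    · intro a φ h1
      refine tendsto_nhds_unique (ht _ (pg_smul a h1)) (((ht φ h1).const_mul a).congr' ?_)
      filter_upwards [eventually_ge_atTop 1] with X hX
      unfold mu
      rw [integral_const_mul]
      ring
    · intro φ ψ h1 h2 h3
      refine le_of_tendsto_of_tendsto (ht φ h1) (ht ψ h2) ?_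
      filter_upwards [eventually_ge_atTop 1] with X hX
      unfold mu
      refine mul_le_mul_of_nonneg_left ?_ (inv_nonneg.2 (by linarith))
      exact setIntegral_mono_on (mu_int hO hX h1.1) (mu_int hO hX h2.1) measurableSet_Icc fun R _ => h3 _
    · refine tendsto_nhds_unique (ht _ (pg_const hP 1)) (tendsto_const_nhds.congr' ?_)
      filter_upwards [eventually_ge_atTop 1] with X hX
      unfold mu
      rw [setIntegral_const, Measure.real, Real.volume_Icc, ENNReal.toReal_ofReal (by linarith), smul_eq_mul, mul_one]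
      have : 2 * X - X = X := by ring
      rw [this, inv_mul_cancel₀ (by linarith)]
  refine ⟨ν, hν, fun φ hφ p hp0 hpP A hA => ?_⟩
  have h1 : PG P φ := ⟨hφ, A, p, A_nn hA, hp0, hpP, hA⟩
  refine ⟨(hνm φ h1).1, ?_⟩
  rw [(hνm φ h1).2]
  exact hm φ h1

/-! ### the error along a centre moving with constant velocity -/

/-- the error at the centre `a - R w` -/
noncomputable def Ep (H : ℝ → ℝ) (a w : ℝ × ℝ) (R : ℝ) : ℝ := cntc H (a.1 - R * w.1, a.2 - R * w.2) R - area H * R ^ 2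

theorem cntc_path (H : ℝ → ℝ) (a w : ℝ × ℝ) (R : ℝ) :
    cntc H (a.1 - R * w.1, a.2 - R * w.2) R = cntc (fun θ => H θ - (w.1 * cos θ + w.2 * sin θ)) a R := by
  unfold cntc
  congr 1
  refine Nat.card_congr (Equiv.subtypeEquivRight fun k => ?_)
  refine forall_congr' fun θ => ?_
  simp only
  constructor
  · intro h
    linarith
  · intro h
    linarith

theorem ep_meas (H : ℝ → ℝ) (a w : ℝ × ℝ) : Measurable (Ep H a w) := by
  have h1 : Ep H a w = fun R => cntc (fun θ => H θ - (w.1 * cos θ + w.2 * sin θ)) a R - area H * R ^ 2 := by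
    funext R
    unfold Ep
    rw [cntc_path]
  rw [h1]
  exact (Pool.Agent.Helper60.MM.cntc_radius_meas _ a).sub (by fun_prop)

theorem ep_le {H : ℝ → ℝ} (hb : ∀ R : ℝ, BddAbove (range fun c : ℝ × ℝ => |cntc H c R - area H * R ^ 2|)) (a w : ℝ × ℝ) (R : ℝ) :
    |Ep H a w R| ≤ SupE H R := le_ciSup (hb R) (a.1 - R * w.1, a.2 - R * w.2)

theorem ep_ok {H : ℝ → ℝ} (hH : ContDiff ℝ 2 H) (hp : Function.Periodic H (2 * π)) (hr : ∀ θ, 0 < H θ + deriv (deriv H) θ) (a w : ℝ × ℝ) :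
    OkU (Ep H a w) := by
  obtain ⟨hb, hloc, -, -⟩ := Pool.Agent.Helper60.WC.supE_facts hH hp hr
  refine ⟨ep_meas H a w, fun Y => ?_⟩
  obtain ⟨C, hC⟩ := hloc Y
  exact ⟨C, fun R hR => (ep_le hb a w R).trans (hC R hR).2⟩

theorem ep_gr {H : ℝ → ℝ} (hH : ContDiff ℝ 2 H) (hp : Function.Periodic H (2 * π)) (hr : ∀ θ, 0 < H θ + deriv (deriv H) θ) (a w : ℝ × ℝ)
    {s : ℝ} (hs : 0 < s) (hG : Gr H s) : GrU (Ep H a w) s := by
  obtain ⟨hb, hloc, hmeas, hid⟩ := Pool.Agent.Helper60.WC.supE_facts hH hp hr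
  have hO : Ok H := ⟨hmeas, hloc⟩
  have hOU := ep_ok hH hp hr a w
  obtain ⟨C, hC⟩ := hG
  refine ⟨max C 0, le_max_right _ _, fun X hX => ?_⟩
  have hcs : Continuous (fun y : ℝ => |y| ^ s) := continuous_abs.rpow_const fun _ => Or.inr hs.le
  have hE : BM X fun R => |SupE H R| ^ s := (sup_bm hO hX).comp hcs
  have hU : BM X fun R => |Ep H a w R| ^ s := (u_bm hOU hX).comp hcs
  obtain ⟨B, hB⟩ := hloc (2 * X)
  have hB' : ∀ R ∈ Icc X (2 * X), 0 ≤ SupE H R := fun R hR => (hB R ⟨hX.trans hR.1, hR.2⟩).1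
  have h1 : ∫ R in Icc X (2 * X), |SupE H R| ^ s ≤ max C 0 * X ^ (1 + s / 2) := by
    rw [integral_eq_lintegral_of_nonneg_ae (Eventually.of_forall fun R => Real.rpow_nonneg (abs_nonneg _) _)
      hE.1.aestronglyMeasurable]
    refine ENNReal.toReal_le_of_le_ofReal (by positivity) (le_trans ?_ ((hC X hX).trans
      (ENNReal.ofReal_le_ofReal (mul_le_mul_of_nonneg_right (le_max_left _ _) (by positivity)))))
    refine setLIntegral_mono' measurableSet_Icc fun R hR => le_of_eq ?_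
    rw [hid s hs R, abs_of_nonneg (hB' R hR)]
  refine le_trans ?_ h1
  refine setIntegral_mono_on hU.int hE.int measurableSet_Icc fun R hR => ?_
  refine Real.rpow_le_rpow (abs_nonneg _) ?_ hs.le
  rw [abs_of_nonneg (hB' R hR)]
  exact ep_le hb a w R

/-- the frequencies along the path -/
noncomputable def hw (H : ℝ → ℝ) (N : ℕ) (w : ℝ × ℝ) (k : {k // k ∈ prim N}) : ℝ :=
  nk k.1 * H (tk k.1) - ((k.1.1 : ℝ) * w.1 + (k.1.2 : ℝ) * w.2)

/-- the main sum on the torus, at the centre `a` -/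
noncomputable def Pa (H : ℝ → ℝ) (N : ℕ) (a : ℝ × ℝ) (y : UnitAddTorus {k // k ∈ prim N}) : ℝ :=
  ∑ k : {k // k ∈ prim N}, ak H k.1 * FJ ((N - 1) / sn k.1) (y k + (((k.1.1 : ℝ) * a.1 + (k.1.2 : ℝ) * a.2 : ℝ) : UnitAddCircle))

theorem Pa_cont (H : ℝ → ℝ) (N : ℕ) (a : ℝ × ℝ) : Continuous (Pa H N a) := by
  unfold Pa
  refine continuous_finsetSum _ fun k _ => continuous_const.mul ((FJ_cont _).comp ?_)
  exact (continuous_apply k).add continuous_const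

theorem Mx_path (H : ℝ → ℝ) (N : ℕ) (a w : ℝ × ℝ) (R : ℝ) :
    Mx H N R (a.1 - R * w.1, a.2 - R * w.2) = Pa H N a (line (hw H N w) R) := by
  unfold Mx Pa
  rw [← Finset.sum_coe_sort]
  refine Finset.sum_congr rfl fun k _ => ?_
  congr 1
  rw [← FJ_coe]
  congr 1
  unfold line hw
  rw [← AddCircle.coe_add]
  congr 1
  ring

theorem mean_path (H : ℝ → ℝ) (N : ℕ) (a w : ℝ × ℝ) {φ : ℝ → ℝ} (hφ : Continuous φ) :
    (Continuous fun R : ℝ => Mx H N R (a.1 - R * w.1, a.2 - R * w.2)) ∧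
    ∃ m : ℝ, ∀ ε : ℝ, 0 < ε → ∃ X₀ : ℝ, 1 ≤ X₀ ∧ ∀ X : ℝ, X₀ ≤ X →
      |X⁻¹ * (∫ R in Icc X (2 * X), φ (Mx H N R (a.1 - R * w.1, a.2 - R * w.2))) - m| ≤ ε := by
  simp only [Mx_path]
  exact ⟨(Pa_cont H N a).comp (line_cont _), mean_torus_real (hw H N w) (F := fun y => φ (Pa H N a y)) (hφ.comp (Pa_cont H N a))⟩

/-- the limit law at a moving centre, test functions of compact support (as helper22's `law_of_S`) -/
theorem law_of_P {H : ℝ → ℝ} (hH : ContDiff ℝ 2 H) (hp : Function.Periodic H (2 * π)) (hr : ∀ θ, 0 < H θ + deriv (deriv H) θ)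
    (htail : ∀ η : ℝ, 0 < η → ∃ (n0 : ℕ) (X₀ : ℝ), 1 ≤ X₀ ∧ ∀ X : ℝ, X₀ ≤ X → ∃ V : ℝ → ℝ, IntegrableOn V (Icc X (2 * X)) ∧
      (∀ R ∈ Icc X (2 * X), ∀ c : ℝ × ℝ, |cntc H c R - area H * R ^ 2 - sqrt R * Mx H (2 ^ n0) R c| ^ 2 ≤ V R) ∧ ∫ R in Icc X (2 * X), V R ≤ η * X ^ 2)
    (a w : ℝ × ℝ) {φ : ℝ → ℝ} (hφ : Continuous φ) (hc : HasCompactSupport φ) : LimU (Ep H a w) φ := by
  have hO := ep_ok hH hp hr a w
  obtain ⟨B, hB⟩ := hc.exists_bound_of_continuous hφ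
  have hB0 : 0 ≤ B := (norm_nonneg _).trans (hB 0)
  have hu := hc.uniformContinuous_of_continuous hφ
  refine limU_of_approx fun ε hε => ?_
  rw [Metric.uniformContinuous_iff] at hu
  obtain ⟨δ, hδ, hu⟩ := hu (ε / 3) (by positivity)
  obtain ⟨η, hη⟩ : ∃ η : ℝ, η = ε * δ ^ 2 / (3 * (2 * B + 1)) := ⟨_, rfl⟩
  have hη0 : 0 < η := by rw [hη]; positivity
  obtain ⟨n0, X₁, hX₁, h1⟩ := htail η hη0
  obtain ⟨g1, m, hm⟩ := mean_path H (2 ^ n0) a w hφ
  obtain ⟨M, hM⟩ : ∃ M : ℝ → ℝ, M = fun R => Mx H (2 ^ n0) R (a.1 - R * w.1, a.2 - R * w.2) := ⟨_, rfl⟩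
  obtain ⟨X₂, hX₂, h2⟩ := hm (ε / 3) (by positivity)
  refine ⟨m, max X₁ X₂, hX₁.trans (le_max_left _ _), fun X hX => ?_⟩
  have hXa : X₁ ≤ X := (le_max_left _ _).trans hX
  have hXb : X₂ ≤ X := (le_max_right _ _).trans hX
  have hX1 : 1 ≤ X := hX₁.trans hXa
  have hX0 : 0 < X := by linarith
  obtain ⟨V, v1, v2, v3⟩ := h1 X hXa
  have b1 : IntegrableOn (fun R => φ (Ep H a w R / sqrt R)) (Icc X (2 * X)) := mu_int hO hX1 hφ
  have b2 : IntegrableOn (fun R => φ (M R)) (Icc X (2 * X)) := by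
    rw [hM]
    exact (BM.cont (hφ.comp g1).continuousOn).int
  have h3 : |X⁻¹ * (∫ R in Icc X (2 * X), φ (Ep H a w R / sqrt R)) - X⁻¹ * (∫ R in Icc X (2 * X), φ (M R))| ≤
      X⁻¹ * ∫ R in Icc X (2 * X), |φ (Ep H a w R / sqrt R) - φ (M R)| := by
    rw [← mul_sub, ← integral_sub b1 b2, abs_mul, abs_of_pos (inv_pos.2 hX0)]
    exact mul_le_mul_of_nonneg_left (abs_integral_le_integral_abs) (by positivity)
  -- the pointwise bound
  have hpt : ∀ R ∈ Icc X (2 * X), |φ (Ep H a w R / sqrt R) - φ (M R)| ≤ ε / 3 + 2 * B / δ ^ 2 / X * V R := by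
    intro R hR
    have hR0 : 0 < R := by linarith [hR.1]
    have hs : 0 < sqrt R := Real.sqrt_pos.2 hR0
    obtain ⟨y, hy⟩ : ∃ y : ℝ, y = Ep H a w R / sqrt R := ⟨_, rfl⟩
    obtain ⟨z, hz⟩ : ∃ z : ℝ, z = M R := ⟨_, rfl⟩
    have hV0 : 0 ≤ V R := (by positivity : (0 : ℝ) ≤ _).trans (v2 R hR (0, 0))
    have hq : |y - z| ^ 2 ≤ V R / X := by
      have h4 : |y - z| ^ 2 ≤ V R / R := by
        have e2 : y - z = (cntc H (a.1 - R * w.1, a.2 - R * w.2) R - area H * R ^ 2 -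
            sqrt R * Mx H (2 ^ n0) R (a.1 - R * w.1, a.2 - R * w.2)) / sqrt R := by
          rw [hy, hz, hM]
          unfold Ep
          field_simp
        rw [e2, abs_div, div_pow, abs_of_pos hs, Real.sq_sqrt hR0.le]
        exact div_le_div_of_nonneg_right (v2 R hR _) hR0.le
      exact h4.trans (div_le_div_of_nonneg_left hV0 hX0 hR.1)
    rw [← hy, ← hz]
    have a1 := hB y
    have a2 := hB z
    rw [Real.norm_eq_abs] at a1 a2
    have hq0 : 0 ≤ 2 * B / δ ^ 2 / X * V R := by positivity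
    rcases lt_or_ge (dist y z) δ with hd | hd
    · have := hu hd
      rw [Real.dist_eq] at this
      linarith
    · rw [Real.dist_eq] at hd
      have a3 : |φ y - φ z| ≤ 2 * B := by
        have := abs_sub (φ y) (φ z)
        linarith
      have a4 : δ ^ 2 ≤ |y - z| ^ 2 := pow_le_pow_left₀ hδ.le hd 2
      have a5 : 2 * B ≤ 2 * B / δ ^ 2 / X * V R := by
        have e3 : 2 * B / δ ^ 2 / X * V R = 2 * B * (V R / X) / δ ^ 2 := by
          field_simp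
        rw [e3, le_div_iff₀ (by positivity)]
        exact mul_le_mul_of_nonneg_left (a4.trans hq) (by positivity)
      linarith
  have h4 : X⁻¹ * ∫ R in Icc X (2 * X), |φ (Ep H a w R / sqrt R) - φ (M R)| ≤ ε / 3 + 2 * B / δ ^ 2 * η := by
    have hconst : IntegrableOn (fun _ : ℝ => ε / 3) (Icc X (2 * X)) := continuousOn_const.integrableOn_compact isCompact_Icc
    have hi := hconst.add (v1.const_mul (2 * B / δ ^ 2 / X))
    have h5 : ∫ R in Icc X (2 * X), |φ (Ep H a w R / sqrt R) - φ (M R)| ≤ ∫ R in Icc X (2 * X), (ε / 3 + 2 * B / δ ^ 2 / X * V R) :=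
      setIntegral_mono_on (b1.sub b2).abs hi measurableSet_Icc hpt
    have e4 : ∫ R in Icc X (2 * X), (ε / 3 + 2 * B / δ ^ 2 / X * V R) = ε / 3 * X + 2 * B / δ ^ 2 / X * ∫ R in Icc X (2 * X), V R := by
      rw [integral_add hconst (v1.const_mul _), integral_const_mul, setIntegral_const, Real.volume_real_Icc_of_le (by linarith), smul_eq_mul]
      ring
    rw [e4] at h5
    have h6 : 2 * B / δ ^ 2 / X * ∫ R in Icc X (2 * X), V R ≤ 2 * B / δ ^ 2 / X * (η * X ^ 2) := mul_le_mul_of_nonneg_left v3 (by positivity)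
    calc X⁻¹ * ∫ R in Icc X (2 * X), |φ (Ep H a w R / sqrt R) - φ (M R)|
        ≤ X⁻¹ * (ε / 3 * X + 2 * B / δ ^ 2 / X * (η * X ^ 2)) := mul_le_mul_of_nonneg_left (h5.trans (by linarith)) (by positivity)
      _ = ε / 3 + 2 * B / δ ^ 2 * η := by
        field_simp
  have h5 : 2 * B / δ ^ 2 * η ≤ ε / 3 := by
    rw [hη]
    have e : 2 * B / δ ^ 2 * (ε * δ ^ 2 / (3 * (2 * B + 1))) = ε / 3 * (2 * B / (2 * B + 1)) := by
      field_simp
    rw [e]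
    refine mul_le_of_le_one_right (by positivity) ?_
    rw [div_le_one (by positivity)]
    linarith
  have h6 := h2 X hXb
  unfold mu
  have e : X⁻¹ * (∫ R in Icc X (2 * X), φ (Ep H a w R / sqrt R)) - m =
      (X⁻¹ * (∫ R in Icc X (2 * X), φ (Ep H a w R / sqrt R)) - X⁻¹ * (∫ R in Icc X (2 * X), φ (M R))) +
      (X⁻¹ * (∫ R in Icc X (2 * X), φ (M R)) - m) := by ring
  rw [e]
  refine (abs_add_le _ _).trans ?_
  have h7 := h3.trans h4
  have h8 : |X⁻¹ * (∫ R in Icc X (2 * X), φ (M R)) - m| ≤ ε / 3 := by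
    rw [hM]
    exact h6
  linarith

/-- the limit law at a moving centre -/
theorem lawP_of {H : ℝ → ℝ} (hH : ContDiff ℝ 2 H) (hp : Function.Periodic H (2 * π)) (hr : ∀ θ, 0 < H θ + deriv (deriv H) θ)
    (htail : ∀ η : ℝ, 0 < η → ∃ (n0 : ℕ) (X₀ : ℝ), 1 ≤ X₀ ∧ ∀ X : ℝ, X₀ ≤ X → ∃ V : ℝ → ℝ, IntegrableOn V (Icc X (2 * X)) ∧
      (∀ R ∈ Icc X (2 * X), ∀ c : ℝ × ℝ, |cntc H c R - area H * R ^ 2 - sqrt R * Mx H (2 ^ n0) R c| ^ 2 ≤ V R) ∧ ∫ R in Icc X (2 * X), V R ≤ η * X ^ 2)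
    {q P : ℝ} (hq : q < P) (hq0 : 0 < q) (hG : ∀ s : ℝ, q ≤ s → s < P → Gr H s) (a w : ℝ × ℝ) : LawU (Ep H a w) P :=
  lawU_of (ep_ok hH hp hr a w) (fun _ hφ hc => law_of_P hH hp hr htail a w hφ hc) hq (hq0.trans hq)
    fun s h1 h2 => ep_gr hH hp hr a w (lt_of_lt_of_le hq0 h1) (hG s h1 h2)

end Pool.Agent.Helper33.LMA
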