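import Pool.Agent.Helper60.WC.SupE
import Pool.Agent.Helper81.MM.Abel

/-!
# LMA-X5 (MP_fb29e9_nt): the asymptotic formula for the moments of the largest error, over a growth bound of a real order

`Gr H s`: the moment of real order `s` of the largest error over `[X, 2X]` is `O(X^(1 + s/2))`.
`Lb H`: the first moment of the largest error is bounded below.
(`asymp` adapted from helper92's `WC.asymp_S_of`, the cut-off from helper85's `WC.grow_S`.)
-/

open MeasureTheory Real Set Filter Topology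

set_option autoImplicit false

namespace Pool.Agent.Helper33.LMA

open Pool.Agent.Helper22.AE
open Pool.Agent.Helper22.AC (cntc)
open Pool.Agent.Helper22.WC (SupE LimS)
open Pool.Agent.Helper92.LW (cut)

/-- growth of real order `s` -/
def Gr (H : ℝ → ℝ) (s : ℝ) : Prop := ∃ C : ℝ, ∀ X : ℝ, 1 ≤ X →
  ∫⁻ R in Icc X (2 * X), ⨆ c : ℝ × ℝ, ENNReal.ofReal (|cntc H c R - area H * R ^ 2| ^ s) ≤ ENNReal.ofReal (C * X ^ (1 + s / 2))

/-- the lower bound of the first moment -/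
def Lb (H : ℝ → ℝ) : Prop := ∃ b : ℝ, 0 < b ∧ ∃ X₀ : ℝ, ∀ X : ℝ, X₀ ≤ X →
  ENNReal.ofReal (b * X ^ (3 / 2 : ℝ)) ≤ ∫⁻ R in Icc X (2 * X), ⨆ c : ℝ × ℝ, ENNReal.ofReal |cntc H c R - area H * R ^ 2|

/-- bounded and measurable on `[X, 2 X]` -/
def BM (X : ℝ) (f : ℝ → ℝ) : Prop :=
  AEMeasurable f (volume.restrict (Icc X (2 * X))) ∧ ∃ B : ℝ, ∀ R ∈ Icc X (2 * X), |f R| ≤ B

lemma BM.int {X : ℝ} {f : ℝ → ℝ} (h : BM X f) : IntegrableOn f (Icc X (2 * X)) := by
  obtain ⟨h1, B, hB⟩ := h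
  have : IsFiniteMeasure (volume.restrict (Icc X (2 * X))) := ⟨by
    rw [Measure.restrict_apply_univ]
    exact measure_Icc_lt_top⟩
  refine Integrable.of_bound h1.aestronglyMeasurable B ?_
  rw [ae_restrict_iff' measurableSet_Icc]
  exact Eventually.of_forall fun R hR => by
    rw [Real.norm_eq_abs]
    exact hB R hR

lemma BM.mul {X : ℝ} {f g : ℝ → ℝ} (hf : BM X f) (hg : BM X g) : BM X (fun R => f R * g R) := by
  obtain ⟨h1, B, hB⟩ := hf
  obtain ⟨h2, B', hB'⟩ := hg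
  refine ⟨h1.mul h2, B * B', fun R hR => ?_⟩
  rw [abs_mul]
  exact mul_le_mul (hB R hR) (hB' R hR) (abs_nonneg _) ((abs_nonneg _).trans (hB R hR))

lemma BM.cont {X : ℝ} {f : ℝ → ℝ} (hf : ContinuousOn f (Icc X (2 * X))) : BM X f := by
  refine ⟨(hf.aemeasurable measurableSet_Icc), ?_⟩
  obtain ⟨C, hC⟩ := isCompact_Icc.exists_bound_of_continuousOn hf
  exact ⟨C, fun R hR => by simpa [Real.norm_eq_abs] using hC R hR⟩

/-- a continuous function of a bounded measurable function -/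
lemma BM.comp {X : ℝ} {f φ : ℝ → ℝ} (hf : BM X f) (hφ : Continuous φ) : BM X (fun R => φ (f R)) := by
  obtain ⟨h1, B, hB⟩ := hf
  obtain ⟨C, hC⟩ := (isCompact_Icc : IsCompact (Icc (-B) B)).exists_bound_of_continuousOn hφ.continuousOn
  exact ⟨hφ.measurable.comp_aemeasurable h1, C, fun R hR => by simpa [Real.norm_eq_abs] using hC _ (abs_le.1 (hB R hR))⟩

/-- the normalized error at the worst centre -/
noncomputable def er (H : ℝ → ℝ) (R : ℝ) : ℝ := SupE H R / sqrt R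

/-- the largest error is measurable and locally bounded -/
def Ok (H : ℝ → ℝ) : Prop :=
  Measurable (SupE H) ∧ ∀ Y : ℝ, ∃ C : ℝ, ∀ R ∈ Icc 1 Y, 0 ≤ SupE H R ∧ SupE H R ≤ C

lemma sup_bm {H : ℝ → ℝ} (hO : Ok H) {X : ℝ} (hX : 1 ≤ X) : BM X (SupE H) := by
  refine ⟨hO.1.aemeasurable, ?_⟩
  obtain ⟨C, hC⟩ := hO.2 (2 * X)
  refine ⟨C, fun R hR => ?_⟩
  have h1 := hC R ⟨hX.trans hR.1, hR.2⟩
  rw [abs_of_nonneg h1.1]
  exact h1.2

lemma er_bm {H : ℝ → ℝ} (hO : Ok H) {X : ℝ} (hX : 1 ≤ X) : BM X (er H) := by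
  have h3 : BM X fun R => (sqrt R)⁻¹ := by
    refine BM.cont (ContinuousOn.inv₀ continuous_sqrt.continuousOn fun R hR => ?_)
    have : 0 < R := by linarith [hR.1]
    positivity
  exact (sup_bm hO hX).mul h3

/-- the mean -/
noncomputable def mn (H : ℝ → ℝ) (φ : ℝ → ℝ) (X : ℝ) : ℝ :=
  X⁻¹ * (∫ R in Icc X (2 * X), φ (er H R))

lemma mn_int {H : ℝ → ℝ} (hO : Ok H) {X : ℝ} (hX : 1 ≤ X)
    {φ : ℝ → ℝ} (hφ : Continuous φ) : IntegrableOn (fun R => φ (er H R)) (Icc X (2 * X)) :=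
  ((er_bm hO hX).comp hφ).int

/-- a Cauchy criterion -/
lemma lim_of_approx {H φ : ℝ → ℝ} (h : ∀ ε : ℝ, 0 < ε → ∃ m X₀ : ℝ, 1 ≤ X₀ ∧ ∀ X : ℝ, X₀ ≤ X →
    |mn H φ X - m| ≤ ε) : LimS H φ := by
  choose m X₀ hX₀ hm using fun n : ℕ => h (1 / ((n : ℝ) + 1)) (by positivity)
  have hd : ∀ n k : ℕ, |m n - m k| ≤ 1 / ((n : ℝ) + 1) + 1 / ((k : ℝ) + 1) := by
    intro n k
    have h1 := hm n (max (X₀ n) (X₀ k)) (le_max_left _ _)
    have h2 := hm k (max (X₀ n) (X₀ k)) (le_max_right _ _)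
    rw [abs_le] at h1 h2 ⊢
    constructor <;> linarith [h1.1, h1.2, h2.1, h2.2]
  have hc : CauchySeq m := by
    refine Metric.cauchySeq_iff'.2 fun ε hε => ?_
    obtain ⟨N, hN⟩ := exists_nat_gt (2 / ε)
    refine ⟨N, fun n hn => ?_⟩
    rw [Real.dist_eq]
    refine (hd n N).trans_lt ?_
    have hN0 : (0 : ℝ) < (N : ℝ) + 1 := by positivity
    have h1 : 1 / ((n : ℝ) + 1) ≤ 1 / ((N : ℝ) + 1) := by
      apply one_div_le_one_div_of_le hN0
      have : (N : ℝ) ≤ n := by exact_mod_cast hn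
      linarith
    have h2 : 1 / ((N : ℝ) + 1) < ε / 2 := by
      rw [div_lt_div_iff₀ hN0 (by norm_num)]
      rw [div_lt_iff₀ hε] at hN
      nlinarith
    linarith
  obtain ⟨l, hl⟩ := cauchySeq_tendsto_of_complete hc
  have hb : ∀ n : ℕ, |m n - l| ≤ 1 / ((n : ℝ) + 1) := by
    intro n
    have h1 : Tendsto (fun k : ℕ => |m n - m k|) atTop (𝓝 |m n - l|) := (tendsto_const_nhds.sub hl).abs
    have h2 : Tendsto (fun k : ℕ => 1 / ((n : ℝ) + 1) + 1 / ((k : ℝ) + 1)) atTop (𝓝 (1 / ((n : ℝ) + 1) + 0)) :=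
      tendsto_const_nhds.add tendsto_one_div_add_atTop_nhds_zero_nat
    have h3 := le_of_tendsto_of_tendsto' h1 h2 (hd n)
    linarith
  refine ⟨l, fun ε hε => ?_⟩
  obtain ⟨n, hn⟩ := exists_nat_gt (2 / ε)
  refine ⟨X₀ n, hX₀ n, fun X hX => ?_⟩
  have h1 := hm n X hX
  have h2 := hb n
  have h3 : 1 / ((n : ℝ) + 1) ≤ ε / 2 := by
    rw [div_le_div_iff₀ (by positivity) (by norm_num)]
    rw [div_lt_iff₀ hε] at hn
    nlinarith
  change |mn H φ X - l| ≤ ε
  rw [abs_le] at h1 h2 ⊢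
  constructor <;> linarith [h1.1, h1.2, h2.1, h2.2]

lemma cut_nonneg (K : ℕ) (y : ℝ) : 0 ≤ cut K y := le_max_left _ _

lemma cut_le_one (K : ℕ) (y : ℝ) : cut K y ≤ 1 := max_le zero_le_one (min_le_left _ _)

lemma cut_cont (K : ℕ) : Continuous (cut K) := by
  unfold cut
  fun_prop

lemma cut_eq_one {K : ℕ} {y : ℝ} (h : |y| ≤ (K : ℝ) + 1) : cut K y = 1 := by
  unfold cut
  have hK : (0 : ℝ) < (K : ℝ) + 1 := by positivity
  have h1 : |y| / ((K : ℝ) + 1) ≤ 1 := (div_le_one hK).2 h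
  rw [min_eq_left (by linarith), max_eq_right zero_le_one]

lemma cut_eq_zero {K : ℕ} {y : ℝ} (h : 2 * ((K : ℝ) + 1) ≤ |y|) : cut K y = 0 := by
  unfold cut
  have hK : (0 : ℝ) < (K : ℝ) + 1 := by positivity
  have h1 : 2 ≤ |y| / ((K : ℝ) + 1) := (le_div_iff₀ hK).2 h
  exact max_eq_left ((min_le_right _ _).trans (by linarith))

/-- the moment of real order `s` of the normalized largest error -/
theorem mean_rpow_le {H : ℝ → ℝ} (hO : Ok H)
    (hid : ∀ p : ℝ, 0 < p → ∀ R : ℝ, ⨆ c : ℝ × ℝ, ENNReal.ofReal (|cntc H c R - area H * R ^ 2| ^ p) = ENNReal.ofReal (SupE H R ^ p))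
    {s : ℝ} (hs : 0 < s) {C : ℝ} (hC0 : 0 ≤ C)
    (hC : ∀ X : ℝ, 1 ≤ X → ∫⁻ R in Icc X (2 * X), ⨆ c : ℝ × ℝ, ENNReal.ofReal (|cntc H c R - area H * R ^ 2| ^ s) ≤
      ENNReal.ofReal (C * X ^ (1 + s / 2))) {X : ℝ} (hX : 1 ≤ X) :
    mn H (fun y => |y| ^ s) X ≤ C := by
  have hX0 : (0 : ℝ) < X := by linarith
  have hcs : Continuous (fun y : ℝ => |y| ^ s) := continuous_abs.rpow_const fun _ => Or.inr hs.le
  have hE : BM X fun R => |SupE H R| ^ s := (sup_bm hO hX).comp hcs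
  obtain ⟨B, hB⟩ := hO.2 (2 * X)
  have hB' : ∀ R ∈ Icc X (2 * X), 0 ≤ SupE H R := fun R hR => (hB R ⟨hX.trans hR.1, hR.2⟩).1
  have h1 : ∫ R in Icc X (2 * X), |SupE H R| ^ s ≤ C * X ^ (1 + s / 2) := by
    rw [integral_eq_lintegral_of_nonneg_ae (Eventually.of_forall fun R => Real.rpow_nonneg (abs_nonneg _) _)
      hE.1.aestronglyMeasurable]
    refine ENNReal.toReal_le_of_le_ofReal (by positivity) (le_trans ?_ (hC X hX))
    refine setLIntegral_mono' measurableSet_Icc fun R hR => le_of_eq ?_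
    rw [hid s hs R, abs_of_nonneg (hB' R hR)]
  have h2 : ∫ R in Icc X (2 * X), |er H R| ^ s ≤ ∫ R in Icc X (2 * X), (X ^ (s / 2))⁻¹ * |SupE H R| ^ s := by
    refine setIntegral_mono_on (mn_int hO hX (φ := fun y => |y| ^ s) hcs) (hE.int.const_mul _) measurableSet_Icc
      fun R hR => ?_
    have hR0 : 0 < R := by linarith [hR.1]
    have e : sqrt R ^ s = R ^ (s / 2) := by
      rw [Real.sqrt_eq_rpow, ← Real.rpow_mul hR0.le]
      congr 1
      ring
    unfold er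
    rw [abs_div, abs_of_nonneg (sqrt_nonneg R), Real.div_rpow (abs_nonneg _) (sqrt_nonneg R), e, div_eq_inv_mul]
    refine mul_le_mul_of_nonneg_right ?_ (Real.rpow_nonneg (abs_nonneg _) _)
    exact inv_anti₀ (by positivity) (Real.rpow_le_rpow hX0.le hR.1 (by positivity))
  rw [integral_const_mul] at h2
  unfold mn
  calc X⁻¹ * (∫ R in Icc X (2 * X), |er H R| ^ s) ≤ X⁻¹ * ((X ^ (s / 2))⁻¹ * (C * X ^ (1 + s / 2))) := by
        refine mul_le_mul_of_nonneg_left (h2.trans ?_) (inv_pos.2 hX0).le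
        exact mul_le_mul_of_nonneg_left h1 (by positivity)
    _ = C := by
        rw [Real.rpow_add hX0, Real.rpow_one]
        have h3 : 0 < X ^ (s / 2) := by positivity
        field_simp

/-- the means of `|y| ^ p` converge -/
theorem lim_pow {H : ℝ → ℝ} (hH : ContDiff ℝ 2 H) (hp : Function.Periodic H (2 * π)) (hr : ∀ θ, 0 < H θ + deriv (deriv H) θ)
    (hS : ∀ φ : ℝ → ℝ, Continuous φ → HasCompactSupport φ → LimS H φ) {p s : ℝ} (hp0 : 0 < p) (hps : p < s) (hG : Gr H s) :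
    LimS H (fun y => |y| ^ p) := by
  obtain ⟨-, hloc, hmeas, hid⟩ := Pool.Agent.Helper60.WC.supE_facts hH hp hr
  have hO : Ok H := ⟨hmeas, hloc⟩
  have hs0 : 0 < s := hp0.trans hps
  obtain ⟨C', hC'⟩ := hG
  obtain ⟨C, hCdef⟩ : ∃ C : ℝ, C = max C' 0 := ⟨_, rfl⟩
  have hC0 : 0 ≤ C := by rw [hCdef]; exact le_max_right _ _
  have hCC : C' ≤ C := by rw [hCdef]; exact le_max_left _ _
  have hC : ∀ X : ℝ, 1 ≤ X → ∫⁻ R in Icc X (2 * X), ⨆ c : ℝ × ℝ, ENNReal.ofReal (|cntc H c R - area H * R ^ 2| ^ s) ≤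
      ENNReal.ofReal (C * X ^ (1 + s / 2)) := fun X hX =>
    (hC' X hX).trans (ENNReal.ofReal_le_ofReal (mul_le_mul_of_nonneg_right hCC (Real.rpow_nonneg (by linarith) _)))
  have hcp : Continuous (fun y : ℝ => |y| ^ p) := continuous_abs.rpow_const fun _ => Or.inr hp0.le
  have hcs : Continuous (fun y : ℝ => |y| ^ s) := continuous_abs.rpow_const fun _ => Or.inr hs0.le
  refine lim_of_approx fun ε hε => ?_
  -- the cutoff
  obtain ⟨K, hK⟩ : ∃ K : ℕ, C * ((K : ℝ) + 1) ^ (p - s) ≤ ε / 2 := by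
    have h1 : Tendsto (fun K : ℕ => ((K : ℝ) + 1) ^ (-(s - p))) atTop (𝓝 0) :=
      (tendsto_rpow_neg_atTop (by linarith : 0 < s - p)).comp
        (tendsto_atTop_add_const_right _ _ tendsto_natCast_atTop_atTop)
    have h2 : Tendsto (fun K : ℕ => C * ((K : ℝ) + 1) ^ (-(s - p))) atTop (𝓝 (C * 0)) := h1.const_mul C
    rw [mul_zero] at h2
    obtain ⟨K, hK⟩ := (h2.eventually (gt_mem_nhds (half_pos hε))).exists
    refine ⟨K, ?_⟩
    have h3 : -(s - p) = p - s := by ring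
    rw [h3] at hK
    exact hK.le
  have hK0 : (0 : ℝ) < (K : ℝ) + 1 := by positivity
  obtain ⟨ψ, hψdef⟩ : ∃ ψ : ℝ → ℝ, ψ = fun y => |y| ^ p * cut K y := ⟨_, rfl⟩
  have hψ : Continuous ψ := by
    rw [hψdef]
    exact hcp.mul (cut_cont K)
  have hψs : HasCompactSupport ψ := by
    refine HasCompactSupport.intro (isCompact_Icc (a := -(2 * ((K : ℝ) + 1))) (b := 2 * ((K : ℝ) + 1))) fun y hy => ?_
    rw [hψdef]
    simp only
    rw [cut_eq_zero, mul_zero]
    by_contra h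
    push Not at h
    exact hy (abs_le.1 h.le)
  have htail : ∀ X : ℝ, 1 ≤ X → |mn H (fun y => |y| ^ p) X - mn H ψ X| ≤ ε / 2 := by
    intro X hX
    have hX0 : (0 : ℝ) < X := by linarith
    have h1 : ∀ y : ℝ, |(|y| ^ p) - ψ y| ≤ ((K : ℝ) + 1) ^ (p - s) * |y| ^ s := by
      intro y
      have hy0 : 0 ≤ |y| ^ p := Real.rpow_nonneg (abs_nonneg _) _
      rcases le_total |y| ((K : ℝ) + 1) with h | h
      · rw [hψdef]
        simp only
        rw [cut_eq_one h, mul_one, sub_self, abs_zero]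
        exact mul_nonneg (Real.rpow_nonneg hK0.le _) (Real.rpow_nonneg (abs_nonneg _) _)
      · have hy1 : 0 < |y| := lt_of_lt_of_le hK0 h
        have h2 : |(|y| ^ p) - ψ y| ≤ |y| ^ p := by
          have h3 : |y| ^ p - ψ y = |y| ^ p * (1 - cut K y) := by
            rw [hψdef]
            ring
          have h4 := cut_le_one K y
          have h5 := cut_nonneg K y
          rw [h3, abs_of_nonneg (mul_nonneg hy0 (by linarith))]
          nlinarith
        refine h2.trans ?_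
        have h6 : |y| ^ p = |y| ^ (p - s) * |y| ^ s := by
          rw [← Real.rpow_add hy1]
          congr 1
          ring
        rw [h6]
        refine mul_le_mul_of_nonneg_right ?_ (Real.rpow_nonneg hy1.le _)
        exact Real.rpow_le_rpow_of_nonpos hK0 h (by linarith)
    have h2 : |mn H (fun y => |y| ^ p) X - mn H ψ X| ≤ ((K : ℝ) + 1) ^ (p - s) * mn H (fun y => |y| ^ s) X := by
      unfold mn
      rw [← mul_sub, ← integral_sub (mn_int hO hX hcp) (mn_int hO hX hψ), abs_mul, abs_of_pos (inv_pos.2 hX0),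
        mul_left_comm]
      refine mul_le_mul_of_nonneg_left ?_ (inv_pos.2 hX0).le
      rw [← integral_const_mul]
      refine (abs_integral_le_integral_abs).trans ?_
      exact setIntegral_mono_on (mn_int hO hX (φ := fun y => |(|y| ^ p) - ψ y|) (hcp.sub hψ).abs)
        (mn_int hO hX (φ := fun y => ((K : ℝ) + 1) ^ (p - s) * |y| ^ s) (continuous_const.mul hcs))
        measurableSet_Icc fun R _ => h1 _
    calc |mn H (fun y => |y| ^ p) X - mn H ψ X| ≤ ((K : ℝ) + 1) ^ (p - s) * mn H (fun y => |y| ^ s) X := h2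
      _ ≤ ((K : ℝ) + 1) ^ (p - s) * C :=
          mul_le_mul_of_nonneg_left (mean_rpow_le hO hid hs0 hC0 hC hX) (Real.rpow_nonneg hK0.le _)
      _ = C * ((K : ℝ) + 1) ^ (p - s) := by ring
      _ ≤ ε / 2 := hK
  obtain ⟨m, hm⟩ := hS ψ hψ hψs
  obtain ⟨X₀, hX₀, h1⟩ := hm (ε / 2) (by positivity)
  refine ⟨m, X₀, hX₀, fun X hX => ?_⟩
  have e1 := htail X (hX₀.trans hX)
  have e2 := h1 X hX
  change |mn H ψ X - m| ≤ ε / 2 at e2
  rw [abs_le] at e1 e2 ⊢
  constructor <;> linarith [e1.1, e1.2, e2.1, e2.2]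

/-- the pointwise inequality for the positivity of the limit -/
theorem pt_low {y K p s : ℝ} (hy : 0 ≤ y) (hK : 1 ≤ K) (hp0 : 0 < p) (hs1 : 1 < s) :
    y ≤ 1 / K + K ^ (1 + p) * y ^ p + K ^ (1 - s) * y ^ s := by
  have hK0 : 0 < K := by linarith
  have h1 : 0 ≤ 1 / K := by positivity
  have h2 : 0 ≤ K ^ (1 + p) * y ^ p := by positivity
  have h3 : 0 ≤ K ^ (1 - s) * y ^ s := by positivity
  rcases le_total y (1 / K) with h | h
  · linarith
  · have hy0 : 0 < y := lt_of_lt_of_le (by positivity) h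
    rcases le_total y K with h' | h'
    · have h4 : 1 ≤ K * y := by
        rw [div_le_iff₀ hK0] at h
        linarith
      have h5 : 1 ≤ (K * y) ^ p := Real.one_le_rpow h4 hp0.le
      have h6 : K ^ (1 + p) * y ^ p = K * (K * y) ^ p := by
        rw [Real.rpow_add hK0, Real.rpow_one, Real.mul_rpow hK0.le hy]
        ring
      have h7 : K ≤ K * (K * y) ^ p := by nlinarith
      linarith
    · have h4 : y = y ^ (1 - s) * y ^ s := by
        rw [← Real.rpow_add hy0]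
        have : 1 - s + s = 1 := by ring
        rw [this, Real.rpow_one]
      have h5 : y ^ (1 - s) ≤ K ^ (1 - s) := Real.rpow_le_rpow_of_nonpos hK0 h' (by linarith)
      have h6 : y ^ (1 - s) * y ^ s ≤ K ^ (1 - s) * y ^ s := mul_le_mul_of_nonneg_right h5 (Real.rpow_nonneg hy _)
      linarith

/-- the mean of the normalized largest error is bounded below -/
theorem mean_low {H : ℝ → ℝ} (hO : Ok H)
    (hid : ∀ p : ℝ, 0 < p → ∀ R : ℝ, ⨆ c : ℝ × ℝ, ENNReal.ofReal (|cntc H c R - area H * R ^ 2| ^ p) = ENNReal.ofReal (SupE H R ^ p))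
    (hL : Lb H) : ∃ b : ℝ, 0 < b ∧ ∃ X₀ : ℝ, 1 ≤ X₀ ∧ ∀ X : ℝ, X₀ ≤ X → b ≤ mn H (fun y => |y|) X := by
  obtain ⟨b, hb, X₀, h⟩ := hL
  refine ⟨b / 2, by positivity, max X₀ 1, le_max_right _ _, fun X hX => ?_⟩
  have hX1 : 1 ≤ X := (le_max_right _ _).trans hX
  have hX0 : 0 < X := by linarith
  have h1 := h X ((le_max_left _ _).trans hX)
  obtain ⟨B, hB⟩ := hO.2 (2 * X)
  have hB' : ∀ R ∈ Icc X (2 * X), 0 ≤ SupE H R := fun R hR => (hB R ⟨hX1.trans hR.1, hR.2⟩).1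
  have hE : BM X fun R => |SupE H R| := (sup_bm hO hX1).comp continuous_abs
  have h2 : ∫⁻ R in Icc X (2 * X), ⨆ c : ℝ × ℝ, ENNReal.ofReal |cntc H c R - area H * R ^ 2| =
      ENNReal.ofReal (∫ R in Icc X (2 * X), |SupE H R|) := by
    rw [ofReal_integral_eq_lintegral_ofReal hE.int (Eventually.of_forall fun R => abs_nonneg _)]
    refine setLIntegral_congr_fun measurableSet_Icc fun R hR => ?_
    have h3 := hid 1 one_pos R
    simp only [Real.rpow_one] at h3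
    rw [h3, abs_of_nonneg (hB' R hR)]
  rw [h2] at h1
  have h0 : 0 ≤ ∫ R in Icc X (2 * X), |SupE H R| := setIntegral_nonneg measurableSet_Icc fun R _ => abs_nonneg _
  have h4 : b * X ^ (3 / 2 : ℝ) ≤ ∫ R in Icc X (2 * X), |SupE H R| := (ENNReal.ofReal_le_ofReal_iff h0).1 h1
  have h5 : ∫ R in Icc X (2 * X), (sqrt (2 * X))⁻¹ * |SupE H R| ≤ ∫ R in Icc X (2 * X), |er H R| := by
    refine setIntegral_mono_on (hE.int.const_mul _) (mn_int hO hX1 (φ := fun y => |y|) continuous_abs) measurableSet_Icc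
      fun R hR => ?_
    have hR0 : 0 < R := by linarith [hR.1]
    have hsR : 0 < sqrt R := Real.sqrt_pos.2 hR0
    unfold er
    rw [abs_div, abs_of_nonneg (sqrt_nonneg R), div_eq_inv_mul]
    exact mul_le_mul_of_nonneg_right (inv_anti₀ hsR (Real.sqrt_le_sqrt hR.2)) (abs_nonneg _)
  rw [integral_const_mul] at h5
  have hs2 : 0 < sqrt (2 * X) := Real.sqrt_pos.2 (by linarith)
  have h6 : sqrt (2 * X) ≤ 2 * sqrt X := by
    rw [Real.sqrt_le_left (by positivity), mul_pow, Real.sq_sqrt hX0.le]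
    linarith
  have hsX : 0 < sqrt X := Real.sqrt_pos.2 hX0
  have h7 : X ^ (3 / 2 : ℝ) = X * sqrt X := by
    have : (3 / 2 : ℝ) = 1 + 1 / 2 := by norm_num
    rw [this, Real.rpow_add hX0, Real.rpow_one, ← Real.sqrt_eq_rpow]
  unfold mn
  calc b / 2 = X⁻¹ * ((2 * sqrt X)⁻¹ * (b * (X * sqrt X))) := by
        field_simp
    _ ≤ X⁻¹ * ((sqrt (2 * X))⁻¹ * (b * (X * sqrt X))) := by
        refine mul_le_mul_of_nonneg_left ?_ (inv_pos.2 hX0).le
        exact mul_le_mul_of_nonneg_right (inv_anti₀ hs2 h6) (by positivity)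
    _ ≤ X⁻¹ * (∫ R in Icc X (2 * X), |er H R|) := by
        refine mul_le_mul_of_nonneg_left (le_trans ?_ h5) (inv_pos.2 hX0).le
        rw [← h7]
        exact mul_le_mul_of_nonneg_left h4 (inv_pos.2 hs2).le

/-- the limit of the means of `|y| ^ p` is positive -/
theorem lim_pos {H : ℝ → ℝ} (hO : Ok H)
    (hid : ∀ p : ℝ, 0 < p → ∀ R : ℝ, ⨆ c : ℝ × ℝ, ENNReal.ofReal (|cntc H c R - area H * R ^ 2| ^ p) = ENNReal.ofReal (SupE H R ^ p))
    {p s : ℝ} (hp0 : 0 < p) (hs1 : 1 < s) (hG : Gr H s) (hL : Lb H) :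
    ∃ b : ℝ, 0 < b ∧ ∃ X₀ : ℝ, 1 ≤ X₀ ∧ ∀ X : ℝ, X₀ ≤ X → b ≤ mn H (fun y => |y| ^ p) X := by
  obtain ⟨b, hb, X₀, hX₀, h1⟩ := mean_low hO hid hL
  have hs0 : 0 < s := by linarith
  obtain ⟨C', hC'⟩ := hG
  obtain ⟨C, hCdef⟩ : ∃ C : ℝ, C = max C' 0 := ⟨_, rfl⟩
  have hC0 : 0 ≤ C := by rw [hCdef]; exact le_max_right _ _
  have hCC : C' ≤ C := by rw [hCdef]; exact le_max_left _ _
  have hC : ∀ X : ℝ, 1 ≤ X → ∫⁻ R in Icc X (2 * X), ⨆ c : ℝ × ℝ, ENNReal.ofReal (|cntc H c R - area H * R ^ 2| ^ s) ≤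
      ENNReal.ofReal (C * X ^ (1 + s / 2)) := fun X hX =>
    (hC' X hX).trans (ENNReal.ofReal_le_ofReal (mul_le_mul_of_nonneg_right hCC (Real.rpow_nonneg (by linarith) _)))
  obtain ⟨K, hK1, hKa, hKb⟩ : ∃ K : ℝ, 1 ≤ K ∧ 1 / K ≤ b / 4 ∧ K ^ (1 - s) * C ≤ b / 4 := by
    have h2 : Tendsto (fun K : ℝ => K ^ (-(s - 1)) * C) atTop (𝓝 (0 * C)) :=
      (tendsto_rpow_neg_atTop (by linarith : 0 < s - 1)).mul_const C
    rw [zero_mul] at h2
    have h3 : Tendsto (fun K : ℝ => 1 / K) atTop (𝓝 0) := by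
      simpa using tendsto_inv_atTop_zero (𝕜 := ℝ)
    have hb4 : 0 < b / 4 := by positivity
    obtain ⟨K, ⟨ha, hb'⟩, hc⟩ := (((h2.eventually (gt_mem_nhds hb4)).and (h3.eventually (gt_mem_nhds hb4))).and
      (eventually_ge_atTop (1 : ℝ))).exists
    refine ⟨K, hc, hb'.le, ?_⟩
    have h4 : -(s - 1) = 1 - s := by ring
    rw [h4] at ha
    exact ha.le
  have hK0 : 0 < K := by linarith
  have hKp : 0 < K ^ (1 + p) := Real.rpow_pos_of_pos hK0 _
  refine ⟨b / 2 / K ^ (1 + p), by positivity, X₀, hX₀, fun X hX => ?_⟩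
  have hX1 : 1 ≤ X := hX₀.trans hX
  have hX0 : 0 < X := by linarith
  have h2 := h1 X hX
  have hcp : Continuous (fun y : ℝ => |y| ^ p) := continuous_abs.rpow_const fun _ => Or.inr hp0.le
  have hcs : Continuous (fun y : ℝ => |y| ^ s) := continuous_abs.rpow_const fun _ => Or.inr hs0.le
  have h3 : mn H (fun y => |y|) X ≤ 1 / K + K ^ (1 + p) * mn H (fun y => |y| ^ p) X + K ^ (1 - s) * mn H (fun y => |y| ^ s) X := by
    have h4 : ∫ R in Icc X (2 * X), |er H R| ≤ ∫ R in Icc X (2 * X),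
        (1 / K + K ^ (1 + p) * |er H R| ^ p + K ^ (1 - s) * |er H R| ^ s) := by
      refine setIntegral_mono_on (mn_int hO hX1 (φ := fun y => |y|) continuous_abs)
        (mn_int hO hX1 (φ := fun y => 1 / K + K ^ (1 + p) * |y| ^ p + K ^ (1 - s) * |y| ^ s)
          ((continuous_const.add (continuous_const.mul hcp)).add (continuous_const.mul hcs)))
        measurableSet_Icc fun R _ => ?_
      exact pt_low (abs_nonneg _) hK1 hp0 hs1
    have i0 : Integrable (fun _ : ℝ => 1 / K) (volume.restrict (Icc X (2 * X))) :=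
      mn_int hO hX1 (φ := fun _ => 1 / K) continuous_const
    have i1 : Integrable (fun R => K ^ (1 + p) * |er H R| ^ p) (volume.restrict (Icc X (2 * X))) :=
      mn_int hO hX1 (φ := fun y => K ^ (1 + p) * |y| ^ p) (continuous_const.mul hcp)
    have i2 : Integrable (fun R => K ^ (1 - s) * |er H R| ^ s) (volume.restrict (Icc X (2 * X))) :=
      mn_int hO hX1 (φ := fun y => K ^ (1 - s) * |y| ^ s) (continuous_const.mul hcs)
    have i01 : Integrable (fun R => 1 / K + K ^ (1 + p) * |er H R| ^ p) (volume.restrict (Icc X (2 * X))) := i0.add i1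
    have h5 : ∫ R in Icc X (2 * X), (1 / K + K ^ (1 + p) * |er H R| ^ p + K ^ (1 - s) * |er H R| ^ s) =
        X * (1 / K) + K ^ (1 + p) * (∫ R in Icc X (2 * X), |er H R| ^ p) + K ^ (1 - s) * ∫ R in Icc X (2 * X), |er H R| ^ s := by
      rw [integral_add i01 i2, integral_add i0 i1, integral_const_mul, integral_const_mul]
      congr 2
      rw [setIntegral_const, Measure.real, Real.volume_Icc, ENNReal.toReal_ofReal (by linarith), smul_eq_mul]
      ring
    rw [h5] at h4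
    unfold mn
    have h6 := mul_le_mul_of_nonneg_left h4 (inv_pos.2 hX0).le
    refine h6.trans (le_of_eq ?_)
    have h7 : X⁻¹ * (X * (1 / K)) = 1 / K := by
      field_simp
    rw [mul_add, mul_add, h7]
    ring
  have h4 := mean_rpow_le hO hid hs0 hC0 hC hX1
  have h5 : K ^ (1 - s) * mn H (fun y => |y| ^ s) X ≤ K ^ (1 - s) * C :=
    mul_le_mul_of_nonneg_left h4 (Real.rpow_nonneg hK0.le _)
  rw [div_le_iff₀ hKp]
  linarith

/-- the asymptotic formula for the moment of order `p` of the largest error -/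
theorem asymp {H : ℝ → ℝ} (hH : ContDiff ℝ 2 H) (hp : Function.Periodic H (2 * π)) (hr : ∀ θ, 0 < H θ + deriv (deriv H) θ)
    (hS : ∀ φ : ℝ → ℝ, Continuous φ → HasCompactSupport φ → LimS H φ) {p s : ℝ} (hp0 : 0 < p) (hps : p < s) (hs1 : 1 < s)
    (hG : Gr H s) (hLb : Lb H) :
    ∃ M : ℝ, 0 < M ∧ ∀ d : ℝ, 0 < d → ∃ X₀ : ℝ, 1 ≤ X₀ ∧ ∀ X : ℝ, X₀ ≤ X →
      ∫⁻ R in Icc 1 X, ⨆ c : ℝ × ℝ, ENNReal.ofReal (|cntc H c R - area H * R ^ 2| ^ p) ≠ ⊤ ∧
      |(∫⁻ R in Icc 1 X, ⨆ c : ℝ × ℝ, ENNReal.ofReal (|cntc H c R - area H * R ^ 2| ^ p)).toReal / X ^ (1 + p / 2) - M| ≤ d := by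
  obtain ⟨-, hloc, hmeas, hid'⟩ := Pool.Agent.Helper60.WC.supE_facts hH hp hr
  have hid := hid' p hp0
  have hO : Ok H := ⟨hmeas, hloc⟩
  have hL := lim_pow hH hp hr hS hp0 hps hG
  have hφ : Continuous (fun y : ℝ => |y| ^ p) := continuous_abs.rpow_const fun _ => Or.inr hp0.le
  obtain ⟨F, hF⟩ : ∃ F : ℝ → ℝ, F = fun R => |SupE H R / sqrt R| ^ p := ⟨_, rfl⟩
  have hF0 : ∀ R, 0 ≤ F R := fun R => by
    rw [hF]
    exact Real.rpow_nonneg (abs_nonneg _) _
  have hFm : Measurable F := by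
    rw [hF]
    exact hφ.measurable.comp (hmeas.div (by fun_prop))
  have hFb : ∀ Y : ℝ, ∃ C : ℝ, ∀ R ∈ Icc 1 Y, F R ≤ C := by
    intro Y
    obtain ⟨C, hC⟩ := hloc Y
    refine ⟨C ^ p, fun R hR => ?_⟩
    rw [hF]
    refine Real.rpow_le_rpow (abs_nonneg _) ?_ hp0.le
    have hs : 1 ≤ sqrt R := Real.one_le_sqrt.2 hR.1
    have hs0 : 0 ≤ sqrt R := by linarith
    rw [abs_div, abs_of_nonneg hs0, abs_of_nonneg (hC R hR).1]
    exact (div_le_self (hC R hR).1 hs).trans (hC R hR).2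
  have hbi : ∀ {G : ℝ → ℝ} {Y C : ℝ}, Measurable G → (∀ R ∈ Icc 1 Y, 0 ≤ G R ∧ G R ≤ C) → IntegrableOn G (Icc 1 Y) := by
    intro G Y C hG h
    have : IsFiniteMeasure (volume.restrict (Icc 1 Y)) := ⟨by
      rw [Measure.restrict_apply_univ]
      exact measure_Icc_lt_top⟩
    refine Integrable.of_bound hG.aestronglyMeasurable C ?_
    rw [ae_restrict_iff' measurableSet_Icc]
    exact Eventually.of_forall fun R hR => by
      rw [Real.norm_eq_abs, abs_of_nonneg (h R hR).1]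
      exact (h R hR).2
  have hFi : ∀ X : ℝ, IntegrableOn F (Icc 1 X) := by
    intro X
    obtain ⟨C, hC⟩ := hFb X
    exact hbi hFm fun R hR => ⟨hF0 R, hC R hR⟩
  -- the limit of the means is positive
  obtain ⟨m, hm⟩ := hL
  obtain ⟨b, hb, X₀, hX₀, hlow⟩ := lim_pos hO hid' hp0 hs1 hG hLb
  have hcmp : b ≤ m := by
    refine le_of_forall_pos_le_add fun e he => ?_
    obtain ⟨X₁, hX₁, h1⟩ := hm e he
    have a1 := (abs_le.1 (h1 (max X₀ X₁) (le_max_right _ _))).2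
    have a2 := hlow (max X₀ X₁) (le_max_left _ _)
    unfold mn er at a2
    linarith
  have hmpos : 0 < m := lt_of_lt_of_le hb hcmp
  have key := Pool.Agent.Helper81.MM.abel_mean (I := Unit) (F := fun _ => F) (fun _ R => hF0 R) (fun _ X => hFi X) (m := m)
    (by
      intro d hd
      obtain ⟨X₀, h1, h2⟩ := hm d hd
      refine ⟨X₀, h1, fun X hX _ => ?_⟩
      have := h2 X hX
      rw [hF]
      exact this)
    (fun Y => ⟨∫ R in Icc 1 Y, F R, fun _ => le_rfl⟩) (q := p / 2) (by positivity)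
  refine ⟨m / (1 + p / 2), by positivity, fun d hd => ?_⟩
  obtain ⟨X₀, hX₀, h2⟩ := key d hd
  refine ⟨X₀, hX₀, fun X hX => ?_⟩
  have hSm : Measurable fun R => SupE H R ^ p := hmeas.pow_const p
  have hSi : IntegrableOn (fun R => SupE H R ^ p) (Icc 1 X) := by
    obtain ⟨C, hC⟩ := hloc X
    exact hbi hSm fun R hR => ⟨Real.rpow_nonneg (hC R hR).1 _, Real.rpow_le_rpow (hC R hR).1 (hC R hR).2 hp0.le⟩
  obtain ⟨C, hC⟩ := hloc X
  have e1 : ∫⁻ R in Icc 1 X, ⨆ c : ℝ × ℝ, ENNReal.ofReal (|cntc H c R - area H * R ^ 2| ^ p) = ENNReal.ofReal (∫ R in Icc 1 X, SupE H R ^ p) := by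
    simp only [hid]
    refine (ofReal_integral_eq_lintegral_ofReal hSi ?_).symm
    rw [EventuallyLE, ae_restrict_iff' measurableSet_Icc]
    exact Eventually.of_forall fun R hR => Real.rpow_nonneg (hC R hR).1 _
  have e2 : ∫ R in Icc 1 X, SupE H R ^ p = ∫ R in Icc 1 X, R ^ (p / 2) * F R := by
    refine setIntegral_congr_fun measurableSet_Icc fun R hR => ?_
    have hR0 : 0 < R := by linarith [hR.1]
    have hs : 0 < sqrt R := Real.sqrt_pos.2 hR0
    have e : R ^ (p / 2) = sqrt R ^ p := by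
      rw [Real.sqrt_eq_rpow, ← Real.rpow_mul hR0.le]
      congr 1
      ring
    simp only [hF]
    rw [e, ← Real.mul_rpow hs.le (abs_nonneg _), abs_div, abs_of_pos hs, mul_div_cancel₀ _ hs.ne', abs_of_nonneg (hC R hR).1]
  have e3 : 0 ≤ ∫ R in Icc 1 X, SupE H R ^ p := setIntegral_nonneg measurableSet_Icc fun R hR => Real.rpow_nonneg (hC R hR).1 _
  rw [e1]
  refine ⟨ENNReal.ofReal_ne_top, ?_⟩
  rw [ENNReal.toReal_ofReal e3, e2]
  exact h2 X hX ()

end Pool.Agent.Helper33.LMA
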