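import Pool.Agent.Helper33.LMA.Law
import Pool.Agent.Helper64.LMA.Asm
import Pool.Agent.Helper64.LMA.Tr

/-!
# LMA (MP_fb29e9_nt): the limit law of the largest error for almost every lattice, from the block bounds
-/

open MeasureTheory Real Set Filter Topology

set_option autoImplicit false

namespace Pool.Agent.Helper33.LMA

open Pool.Agent.Helper22.AE
open Pool.Agent.Helper22.AC (cntc)
open Pool.Agent.Helper22.OV (shf)
open Pool.Agent.Helper22.WC (SupE LimS)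
open Pool.Agent.Helper92.LA (lcnt)
open Pool.Agent.Helper22.LP (Fr fdet Hf Hf_isSupp)
open Pool.Agent.Helper64.LMA (BlkAll tr_main)

/-- the limit law of the largest error for the lattice `ab` -/
def LawL (H : ℝ → ℝ) (P : ℝ) (ab : Fr) : Prop :=
  Law (fun R => ⨆ c : ℝ × ℝ, |lcnt ab H c R - area H * R ^ 2 / abs (fdet ab)|) P

/-- one oval -/
theorem law_blk {H' : ℝ → ℝ} (hH : IsSupp H') {q P : ℝ} (hq : 2 ≤ q) (hqP : q < P) (hB : BlkAll H' q P) : Law (SupE H') P := by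
  have hs : ∀ s : ℝ, q ≤ s → s < P → ∃ e : ℝ, 0 < e ∧ e ≤ 1 / 8 ∧ Pool.Agent.Helper75.LMA.BlkT H' s e := by
    intro s h1 h2
    obtain ⟨e0, he0, he⟩ := hB s h1 h2
    exact ⟨min e0 (1 / 8), lt_min he0 (by norm_num), min_le_right _ _, he _ (lt_min he0 (by norm_num)) (min_le_left _ _)⟩
  obtain ⟨e, he0, he1, he⟩ := hs q le_rfl hqP
  refine law_of hH.smooth hH.per hH.rho_pos (fun φ hφ hc => Pool.Agent.Helper60.LMA.limS_of_blk hH hq he0 he1 he hφ hc)
    hqP (by linarith) (fun s h1 h2 => ?_)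
    (Pool.Agent.Helper27.LX.lb_of_tail hH.smooth hH.per hH.rho_pos (Pool.Agent.Helper60.LMA.htail_ge hH hq he0 he1 he 1))
  obtain ⟨e', h3, h4, h5⟩ := hs s h1 h2
  exact Pool.Agent.Helper60.LMA.growth hH (hq.trans h1) h3 h4 h5

/-- almost every lattice -/
theorem lawL_of {H : ℝ → ℝ} (h2 : ContDiff ℝ 2 H) (hp : Function.Periodic H (2 * π)) (hr : ∀ t, 0 < H t + deriv (deriv H) t) {q P : ℝ} (hq : 2 ≤ q)
    (hqP : q < P) (h : ∀ v : ℝ × ℝ, IsSupp (shf H v) → ∀ᵐ f : Fr, 0 < fdet f → BlkAll (Hf (shf H v) f) q P) :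
    ∀ᵐ ab : Fr, fdet ab ≠ 0 ∧ LawL H P ab := by
  refine tr_main h2 hp hr (F := fun t : ℝ => t) (Q := fun S => Law S P) fun v hv => ?_
  filter_upwards [h v hv] with f hf hdet
  exact law_blk (Hf_isSupp hv hdet.ne') hq hqP (hf hdet)

end Pool.Agent.Helper33.LMA
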