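import Pool.Agent.Helper33.LMA.LawC
import Pool.Agent.Helper33.LMA.LawL

/-!
# LMA (MP_fb29e9_nt): the limit law of the error at every centre, for almost every lattice, from the block bounds
-/

open MeasureTheory Real Set Filter Topology

set_option autoImplicit false

namespace Pool.Agent.Helper33.LMA

open Pool.Agent.Helper22.AE
open Pool.Agent.Helper22.AC (cntc)
open Pool.Agent.Helper22.OV (shf)
open Pool.Agent.Helper22.WC (SupE LimS)
open Pool.Agent.Helper92.LA (dl fdet_dl lcnt lcnt_eq lcnt_swap ae_dual ae_swap ae_det)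
open Pool.Agent.Helper22.LP (Fr fdet Hf Hf_isSupp area_lin)
open Pool.Agent.Helper64.LMA (BlkAll)

/-- the limit laws of the error at every centre, for the lattice `ab` -/
def LawCL (H : ℝ → ℝ) (P : ℝ) (ab : Fr) : Prop :=
  ∀ c : ℝ × ℝ, LawU (fun R => lcnt ab H c R - area H * R ^ 2 / abs (fdet ab)) P

/-- one oval, every moving centre -/
theorem lawP_blk {H' : ℝ → ℝ} (hH : IsSupp H') {q P : ℝ} (hq : 2 ≤ q) (hqP : q < P) (hB : BlkAll H' q P) (a w : ℝ × ℝ) :
    LawU (Ep H' a w) P := by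
  have hs : ∀ s : ℝ, q ≤ s → s < P → ∃ e : ℝ, 0 < e ∧ e ≤ 1 / 8 ∧ Pool.Agent.Helper75.LMA.BlkT H' s e := by
    intro s h1 h2
    obtain ⟨e0, he0, he⟩ := hB s h1 h2
    exact ⟨min e0 (1 / 8), lt_min he0 (by norm_num), min_le_right _ _, he _ (lt_min he0 (by norm_num)) (min_le_left _ _)⟩
  obtain ⟨e, he0, he1, he⟩ := hs q le_rfl hqP
  refine lawP_of hH.smooth hH.per hH.rho_pos (Pool.Agent.Helper60.LMA.htail hH hq he0 he1 he) hqP (by linarith) (fun s h1 h2 => ?_) a w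
  obtain ⟨e', h3, h4, h5⟩ := hs s h1 h2
  exact Pool.Agent.Helper60.LMA.growth hH (hq.trans h1) h3 h4 h5

/-- the error for a lattice and for `ℤ²`, with sign -/
theorem err_dl_s {H : ℝ → ℝ} (hp : Function.Periodic H (2 * π)) {ab : Fr} (h : fdet ab ≠ 0) (c : ℝ × ℝ) (R : ℝ) :
    lcnt ab H c R - area H * R ^ 2 / abs (fdet ab) =
      cntc (Hf H (dl ab)) ((dl ab).1.1 * c.1 + (dl ab).1.2 * c.2, (dl ab).2.1 * c.1 + (dl ab).2.2 * c.2) R -
        area (Hf H (dl ab)) * R ^ 2 := by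
  have hdl : fdet (dl ab) ≠ 0 := by
    rw [fdet_dl h]
    positivity
  rw [← lcnt_eq hp h, area_lin hp hdl, fdet_dl h, abs_div, abs_one]
  congr 1
  ring

/-- the shift of the oval -/
theorem lcnt_shf (H : ℝ → ℝ) (ab : Fr) (v c : ℝ × ℝ) (R : ℝ) : lcnt ab (shf H v) (c.1 - R * v.1, c.2 - R * v.2) R = lcnt ab H c R := by
  unfold lcnt
  congr 1
  refine Nat.card_congr (Equiv.subtypeEquivRight fun k => ?_)
  refine forall_congr' fun t => ?_
  unfold shf
  simp only
  constructor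
  · intro h
    linarith
  · intro h
    linarith

/-- almost every lattice, every centre -/
theorem lawCL_of {H : ℝ → ℝ} (h2 : ContDiff ℝ 2 H) (hp : Function.Periodic H (2 * π)) (hr : ∀ t, 0 < H t + deriv (deriv H) t) {q P : ℝ} (hq : 2 ≤ q)
    (hqP : q < P) (h : ∀ v : ℝ × ℝ, IsSupp (shf H v) → ∀ᵐ f : Fr, 0 < fdet f → BlkAll (Hf (shf H v) f) q P) :
    ∀ᵐ ab : Fr, fdet ab ≠ 0 ∧ LawCL H P ab := by
  obtain ⟨v, hv⟩ := Pool.Agent.Helper22.OV.exists_shift h2 hp hr
  have h1 := ae_dual (h v hv)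
  have h3 : ∀ᵐ ab : Fr, 0 < fdet ab → LawCL H P ab := by
    filter_upwards [h1] with ab h4 hd c
    have hdl : fdet (dl ab) ≠ 0 := by
      rw [fdet_dl hd.ne']
      positivity
    have h5 := lawP_blk (Hf_isSupp hv hdl) hq hqP (h4 hd)
      ((dl ab).1.1 * c.1 + (dl ab).1.2 * c.2, (dl ab).2.1 * c.1 + (dl ab).2.2 * c.2)
      ((dl ab).1.1 * v.1 + (dl ab).1.2 * v.2, (dl ab).2.1 * v.1 + (dl ab).2.2 * v.2)
    have e : (fun R => lcnt ab H c R - area H * R ^ 2 / abs (fdet ab)) = Ep (Hf (shf H v) (dl ab))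
        ((dl ab).1.1 * c.1 + (dl ab).1.2 * c.2, (dl ab).2.1 * c.1 + (dl ab).2.2 * c.2)
        ((dl ab).1.1 * v.1 + (dl ab).1.2 * v.2, (dl ab).2.1 * v.1 + (dl ab).2.2 * v.2) := by
      funext R
      rw [← lcnt_shf H ab v c R, ← Pool.Agent.Helper22.OV.area_shf (H := H) v, err_dl_s hv.per hd.ne']
      unfold Ep
      congr 3 <;> ring
    rw [e]
    exact h5
  have h4 := ae_swap h3
  filter_upwards [h3, h4, ae_det] with ab h5 h6 h7
  refine ⟨h7, ?_⟩
  rcases lt_or_gt_of_ne h7 with h8 | h8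
  · have e : fdet (ab.2, ab.1) = -fdet ab := by
      unfold fdet
      simp only
      ring
    intro c
    have h9 := h6 (by rw [e]; linarith) c
    have e2 : (fun R => lcnt ab H c R - area H * R ^ 2 / abs (fdet ab)) =
        fun R => lcnt (ab.2, ab.1) H c R - area H * R ^ 2 / abs (fdet (ab.2, ab.1)) := by
      funext R
      rw [e, abs_neg, lcnt_swap]
    rw [e2]
    exact h9
  · exact h5 h8

end Pool.Agent.Helper33.LMA
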