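import Pool.Agent.Helper33.LMA.LawCL

/-!
# LMA (MP_fb29e9_nt): the limit law at the centre `0` is not the mass at `0`
-/

open MeasureTheory Real Set Filter Topology

set_option autoImplicit false

namespace Pool.Agent.Helper33.LMA

open Pool.Agent.Helper22.AE
open Pool.Agent.Helper22.AC (cntc)
open Pool.Agent.Helper22.OV (shf)
open Pool.Agent.Helper93.EX (Mx ak prim sn fJ)
open Pool.Agent.Helper92.LA (dl fdet_dl lcnt lcnt_eq lcnt_swap ae_dual ae_swap ae_det)
open Pool.Agent.Helper22.LP (Fr fdet Hf Hf_isSupp area_lin)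
open Pool.Agent.Helper64.LMA (BlkAll)

/-- the mean of a wave -/
theorem mean_cos (α β : ℝ) : Tendsto (fun X : ℝ => X⁻¹ * ∫ R in Icc X (2 * X), cos (2 * π * (R * α) + β)) atTop
    (𝓝 (if α = 0 then cos β else 0)) := by
  split_ifs with h
  · refine tendsto_const_nhds.congr' ?_
    filter_upwards [eventually_ge_atTop 1] with X hX
    have e : ∀ R : ℝ, cos (2 * π * (R * α) + β) = cos β := fun R => by
      rw [h, mul_zero, mul_zero, zero_add]
    simp only [e]
    exact (Pool.Agent.Helper92.LW.mean_const hX _).symm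
  · have hα : 0 < 2 * π * |α| := by
      have := Real.pi_pos
      have := abs_pos.2 h
      positivity
    have h1 : ∀ X : ℝ, 1 ≤ X → |X⁻¹ * ∫ R in Icc X (2 * X), cos (2 * π * (R * α) + β)| ≤ (2 / (2 * π * |α|)) * X⁻¹ := by
      intro X hX
      have hX0 : 0 < X := by linarith
      have hne : 2 * π * α ≠ 0 := by
        have := Real.pi_pos
        exact mul_ne_zero (by positivity) h
      have h2 : ∀ R ∈ uIcc X (2 * X), HasDerivAt (fun R : ℝ => sin (2 * π * (R * α) + β) / (2 * π * α)) (cos (2 * π * (R * α) + β)) R := by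
        intro R _
        have h3 : HasDerivAt (fun R : ℝ => 2 * π * (R * α) + β) (2 * π * α) R := by
          have h4 := (((hasDerivAt_id R).mul_const α).const_mul (2 * π)).add_const β
          simpa using h4
        refine (h3.sin.div_const (2 * π * α)).congr_deriv ?_
        field_simp
      rw [integral_Icc_eq_integral_Ioc, ← intervalIntegral.integral_of_le (by linarith),
        intervalIntegral.integral_eq_sub_of_hasDerivAt h2 (by
          refine Continuous.intervalIntegrable ?_ _ _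
          fun_prop), abs_mul, abs_of_pos (inv_pos.2 hX0), mul_comm]
      refine mul_le_mul_of_nonneg_right ?_ (inv_pos.2 hX0).le
      have h5 : |2 * π * α| = 2 * π * |α| := by
        rw [abs_mul, abs_of_pos (by positivity : (0 : ℝ) < 2 * π)]
      rw [← sub_div, abs_div, h5]
      refine div_le_div_of_nonneg_right ?_ hα.le
      have h6 := abs_sub (sin (2 * π * (2 * X * α) + β)) (sin (2 * π * (X * α) + β))
      have h7 := abs_sin_le_one (2 * π * (2 * X * α) + β)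
      have h8 := abs_sin_le_one (2 * π * (X * α) + β)
      linarith
    have h2 : Tendsto (fun X : ℝ => (2 / (2 * π * |α|)) * X⁻¹) atTop (𝓝 0) := by
      simpa using tendsto_inv_atTop_zero.const_mul (2 / (2 * π * |α|))
    rw [tendsto_zero_iff_abs_tendsto_zero]
    refine squeeze_zero' (Eventually.of_forall fun X => abs_nonneg _) ?_ h2
    filter_upwards [eventually_ge_atTop 1] with X hX
    exact h1 X hX

/-- the mean of a product of two waves with the same phase `-3π/4` -/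
theorem mean_prod (j μ' lam : ℝ) : Tendsto (fun X : ℝ => X⁻¹ * ∫ R in Icc X (2 * X), cos (2 * π * (j * (R * μ')) - 3 * π / 4) *
    cos (2 * π * (R * lam) - 3 * π / 4)) atTop (𝓝 (if j * μ' - lam = 0 then 1 / 2 else 0)) := by
  have h1 := ((mean_cos (j * μ' - lam) 0).const_mul (1 / 2)).add ((mean_cos (j * μ' + lam) (-(3 * π / 2))).const_mul (1 / 2))
  have e1 : (1 / 2 : ℝ) * (if j * μ' - lam = 0 then cos 0 else 0) + 1 / 2 * (if j * μ' + lam = 0 then cos (-(3 * π / 2)) else 0) =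
      if j * μ' - lam = 0 then 1 / 2 else 0 := by
    have h2 : cos (-(3 * π / 2)) = 0 := by
      rw [cos_neg, show 3 * π / 2 = π / 2 + π by ring, cos_add_pi, cos_pi_div_two, neg_zero]
    rw [h2, cos_zero]
    split_ifs <;> norm_num
  rw [e1] at h1
  refine h1.congr fun X => ?_
  have hc1 : Continuous fun R : ℝ => cos (2 * π * (R * (j * μ' - lam)) + 0) := by fun_prop
  have hc2 : Continuous fun R : ℝ => cos (2 * π * (R * (j * μ' + lam)) + -(3 * π / 2)) := by fun_prop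
  have i1 : IntegrableOn (fun R : ℝ => cos (2 * π * (R * (j * μ' - lam)) + 0)) (Icc X (2 * X)) := hc1.continuousOn.integrableOn_compact isCompact_Icc
  have i2 : IntegrableOn (fun R : ℝ => cos (2 * π * (R * (j * μ' + lam)) + -(3 * π / 2))) (Icc X (2 * X)) :=
    hc2.continuousOn.integrableOn_compact isCompact_Icc
  have e2 : ∀ R : ℝ, cos (2 * π * (j * (R * μ')) - 3 * π / 4) * cos (2 * π * (R * lam) - 3 * π / 4) =
      1 / 2 * cos (2 * π * (R * (j * μ' - lam)) + 0) + 1 / 2 * cos (2 * π * (R * (j * μ' + lam)) + -(3 * π / 2)) := by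
    intro R
    have h3 : 2 * π * (R * (j * μ' - lam)) + 0 = (2 * π * (j * (R * μ')) - 3 * π / 4) - (2 * π * (R * lam) - 3 * π / 4) := by ring
    have h4 : 2 * π * (R * (j * μ' + lam)) + -(3 * π / 2) = (2 * π * (j * (R * μ')) - 3 * π / 4) + (2 * π * (R * lam) - 3 * π / 4) := by ring
    have key : ∀ A B : ℝ, cos A * cos B = 1 / 2 * cos (A - B) + 1 / 2 * cos (A + B) := by
      intro A B
      rw [cos_sub, cos_add]
      ring
    rw [h3, h4]
    exact key _ _
  simp only [e2]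
  rw [integral_add (i1.const_mul _) (i2.const_mul _), integral_const_mul, integral_const_mul]
  ring

/-- the frequency along the path -/
noncomputable def fq (H : ℝ → ℝ) (w : ℝ × ℝ) (k : ℤ × ℤ) : ℝ := nk k * H (tk k) - ((k.1 : ℝ) * w.1 + (k.2 : ℝ) * w.2)

theorem Mx_zero (H : ℝ → ℝ) (N : ℕ) (w : ℝ × ℝ) (R : ℝ) :
    Mx H N R (0 - R * w.1, 0 - R * w.2) = ∑ k ∈ prim N, ak H k * (1 / π * ∑ j ∈ Finset.range ((N - 1) / sn k),
      ((j + 1 : ℕ) : ℝ) ^ (-(3 / 2) : ℝ) * cos (2 * π * (((j + 1 : ℕ) : ℝ) * (R * fq H w k)) - 3 * π / 4)) := by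
  unfold Mx
  refine Finset.sum_congr rfl fun k _ => ?_
  congr 1
  unfold fJ
  congr 1
  refine Finset.sum_congr rfl fun j _ => ?_
  congr 3
  unfold fq
  ring

/-- the mean of the main sum against one wave -/
theorem mean_Mx (H : ℝ → ℝ) (N : ℕ) (w : ℝ × ℝ) (lam : ℝ) :
    Tendsto (fun X : ℝ => X⁻¹ * ∫ R in Icc X (2 * X), Mx H N R (0 - R * w.1, 0 - R * w.2) * cos (2 * π * (R * lam) - 3 * π / 4)) atTop
      (𝓝 (∑ k ∈ prim N, ak H k * (1 / π * ∑ j ∈ Finset.range ((N - 1) / sn k),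
        ((j + 1 : ℕ) : ℝ) ^ (-(3 / 2) : ℝ) * (if ((j + 1 : ℕ) : ℝ) * fq H w k - lam = 0 then 1 / 2 else 0)))) := by
  have h1 := tendsto_finsetSum (prim N) fun k (_ : k ∈ prim N) =>
    ((tendsto_finsetSum (Finset.range ((N - 1) / sn k)) fun j (_ : j ∈ Finset.range ((N - 1) / sn k)) =>
      (mean_prod ((j + 1 : ℕ) : ℝ) (fq H w k) lam).const_mul (((j + 1 : ℕ) : ℝ) ^ (-(3 / 2) : ℝ))).const_mul (1 / π)).const_mul (ak H k)
  refine h1.congr fun X => ?_
  have i1 : ∀ (k : ℤ × ℤ) (j : ℕ), IntegrableOn (fun R : ℝ => cos (2 * π * (((j + 1 : ℕ) : ℝ) * (R * fq H w k)) - 3 * π / 4) *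
      cos (2 * π * (R * lam) - 3 * π / 4)) (Icc X (2 * X)) := fun k j => by
    refine Continuous.integrableOn_Icc ?_
    fun_prop
  have e1 : ∀ R : ℝ, Mx H N R (0 - R * w.1, 0 - R * w.2) * cos (2 * π * (R * lam) - 3 * π / 4) =
      ∑ k ∈ prim N, ak H k * (1 / π * ∑ j ∈ Finset.range ((N - 1) / sn k),
        ((j + 1 : ℕ) : ℝ) ^ (-(3 / 2) : ℝ) * (cos (2 * π * (((j + 1 : ℕ) : ℝ) * (R * fq H w k)) - 3 * π / 4) *
          cos (2 * π * (R * lam) - 3 * π / 4))) := by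
    intro R
    rw [Mx_zero, Finset.sum_mul]
    refine Finset.sum_congr rfl fun k _ => ?_
    rw [mul_assoc, mul_assoc, Finset.sum_mul]
    congr 2
    refine Finset.sum_congr rfl fun j _ => ?_
    ring
  simp only [e1]
  rw [integral_finsetSum _ fun k _ => ((integrable_finsetSum _ fun j _ => (i1 k j).const_mul _).const_mul _).const_mul _, Finset.mul_sum]
  refine Finset.sum_congr rfl fun k _ => ?_
  rw [integral_const_mul, integral_const_mul, integral_finsetSum _ fun j _ => (i1 k j).const_mul _]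
  have e3 : ∀ S : ℝ, X⁻¹ * (ak H k * (1 / π * S)) = ak H k * (1 / π * (X⁻¹ * S)) := fun S => by ring
  rw [e3]
  refine congrArg (fun z => ak H k * (1 / π * z)) ?_
  rw [Finset.mul_sum]
  refine Finset.sum_congr rfl fun j _ => ?_
  rw [integral_const_mul]
  ring

theorem ak_pos {H : ℝ → ℝ} (hr : ∀ θ, 0 < H θ + deriv (deriv H) θ) : 0 < ak H (1, 0) := by
  unfold ak
  have h1 : 0 < nk (1, 0) := by
    unfold nk
    rw [norm_pos_iff]
    intro h
    have h2 := congrArg Complex.re h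
    simp [cz] at h2
  exact mul_pos (Real.rpow_pos_of_pos h1 _) (Real.sqrt_pos.2 (hr _))

theorem ak_nonneg (H : ℝ → ℝ) (k : ℤ × ℤ) : 0 ≤ ak H k := by
  unfold ak nk
  positivity

theorem mem_prim {N : ℕ} (hN : 2 ≤ N) : ((1, 0) : ℤ × ℤ) ∈ prim N := by
  unfold prim box sn
  simp only [Finset.mem_filter, Finset.mem_product, Finset.mem_Icc]
  refine ⟨⟨⟨?_, ?_⟩, ?_, ?_⟩, ?_, ?_⟩
  all_goals first | (simp; omega) | simp

/-- the lower bound of the mean -/
theorem lim_low {H : ℝ → ℝ} {N : ℕ} (hN : 2 ≤ N) (w : ℝ × ℝ) :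
    ak H (1, 0) * (1 / π * (1 / 2)) ≤ ∑ k ∈ prim N, ak H k * (1 / π * ∑ j ∈ Finset.range ((N - 1) / sn k),
        ((j + 1 : ℕ) : ℝ) ^ (-(3 / 2) : ℝ) * (if ((j + 1 : ℕ) : ℝ) * fq H w k - fq H w (1, 0) = 0 then 1 / 2 else 0)) := by
  have h0 : ∀ (k : ℤ × ℤ) (j : ℕ), 0 ≤ ((j + 1 : ℕ) : ℝ) ^ (-(3 / 2) : ℝ) *
      (if ((j + 1 : ℕ) : ℝ) * fq H w k - fq H w (1, 0) = 0 then (1 / 2 : ℝ) else 0) := by
    intro k j
    refine mul_nonneg (Real.rpow_nonneg (Nat.cast_nonneg _) _) ?_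
    split_ifs <;> norm_num
  have h1 : ak H (1, 0) * (1 / π * ∑ j ∈ Finset.range ((N - 1) / sn (1, 0)),
        ((j + 1 : ℕ) : ℝ) ^ (-(3 / 2) : ℝ) * (if ((j + 1 : ℕ) : ℝ) * fq H w (1, 0) - fq H w (1, 0) = 0 then 1 / 2 else 0)) ≤
      ∑ k ∈ prim N, ak H k * (1 / π * ∑ j ∈ Finset.range ((N - 1) / sn k),
        ((j + 1 : ℕ) : ℝ) ^ (-(3 / 2) : ℝ) * (if ((j + 1 : ℕ) : ℝ) * fq H w k - fq H w (1, 0) = 0 then 1 / 2 else 0)) := by
    refine Finset.single_le_sum (f := fun k => ak H k * (1 / π * ∑ j ∈ Finset.range ((N - 1) / sn k),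
        ((j + 1 : ℕ) : ℝ) ^ (-(3 / 2) : ℝ) * (if ((j + 1 : ℕ) : ℝ) * fq H w k - fq H w (1, 0) = 0 then 1 / 2 else 0))) ?_ (mem_prim hN)
    intro k _
    exact mul_nonneg (ak_nonneg H k) (mul_nonneg (by positivity) (Finset.sum_nonneg fun j _ => h0 k j))
  refine le_trans (mul_le_mul_of_nonneg_left (mul_le_mul_of_nonneg_left ?_ (by positivity)) (ak_nonneg H _)) h1
  have h2 : 0 ∈ Finset.range ((N - 1) / sn (1, 0)) := by
    have h3 : sn (1, 0) = 1 := by
      unfold sn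
      simp
    rw [h3, Nat.div_one, Finset.mem_range]
    omega
  refine le_trans ?_ (Finset.single_le_sum (f := fun j : ℕ => ((j + 1 : ℕ) : ℝ) ^ (-(3 / 2) : ℝ) *
    (if ((j + 1 : ℕ) : ℝ) * fq H w (1, 0) - fq H w (1, 0) = 0 then (1 / 2 : ℝ) else 0)) (fun j _ => h0 (1, 0) j) h2)
  simp

/-- the first absolute moment at the centre `0` is bounded below -/
theorem ep0_low {H : ℝ → ℝ} (hH : ContDiff ℝ 2 H) (hp : Function.Periodic H (2 * π)) (hr : ∀ θ, 0 < H θ + deriv (deriv H) θ)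
    (htail : ∀ η : ℝ, 0 < η → ∃ (n0 : ℕ) (X₀ : ℝ), 1 ≤ n0 ∧ 1 ≤ X₀ ∧ ∀ X : ℝ, X₀ ≤ X → ∃ V : ℝ → ℝ, IntegrableOn V (Icc X (2 * X)) ∧
      (∀ R ∈ Icc X (2 * X), ∀ c : ℝ × ℝ, |cntc H c R - area H * R ^ 2 - sqrt R * Mx H (2 ^ n0) R c| ^ 2 ≤ V R) ∧ ∫ R in Icc X (2 * X), V R ≤ η * X ^ 2)
    (w : ℝ × ℝ) : ∃ b : ℝ, 0 < b ∧ ∃ X₀ : ℝ, 1 ≤ X₀ ∧ ∀ X : ℝ, X₀ ≤ X → b ≤ mu (Ep H (0, 0) w) (fun y => |y|) X := by
  have hO := ep_ok hH hp hr (0, 0) w
  obtain ⟨κ, hκ⟩ : ∃ κ : ℝ, κ = ak H (1, 0) * (1 / π * (1 / 2)) := ⟨_, rfl⟩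
  have hκ0 : 0 < κ := by
    rw [hκ]
    have h1 := ak_pos hr
    have h2 := Real.pi_pos
    positivity
  obtain ⟨n0, X₁, hn0, hX₁, h1⟩ := htail (κ ^ 2 / 16) (by positivity)
  have hN : 2 ≤ 2 ^ n0 := by
    calc 2 = 2 ^ 1 := (pow_one 2).symm
      _ ≤ 2 ^ n0 := Nat.pow_le_pow_right (by norm_num) hn0
  have hlim := mean_Mx H (2 ^ n0) w (fq H w (1, 0))
  have hlow := lim_low (H := H) hN w
  rw [← hκ] at hlow
  obtain ⟨X₂, hX₂⟩ := eventually_atTop.1 (hlim.eventually (lt_mem_nhds (lt_of_lt_of_le (by linarith : κ / 2 < κ) hlow)))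
  refine ⟨κ / 4, by positivity, max X₁ X₂, hX₁.trans (le_max_left _ _), fun X hX => ?_⟩
  have hXa : X₁ ≤ X := (le_max_left _ _).trans hX
  have hXb : X₂ ≤ X := (le_max_right _ _).trans hX
  have hX1 : 1 ≤ X := hX₁.trans hXa
  have hX0 : 0 < X := by linarith
  obtain ⟨V, v1, v2, v3⟩ := h1 X hXa
  have h2 := hX₂ X hXb
  obtain ⟨M, hM⟩ : ∃ M : ℝ → ℝ, M = fun R => Mx H (2 ^ n0) R (0 - R * w.1, 0 - R * w.2) := ⟨_, rfl⟩
  have hMc : Continuous M := by
    rw [hM]
    exact (mean_path H (2 ^ n0) (0, 0) w (φ := fun y => y) continuous_id).1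
  obtain ⟨T, hT⟩ : ∃ T : ℝ → ℝ, T = fun R => cos (2 * π * (R * fq H w (1, 0)) - 3 * π / 4) := ⟨_, rfl⟩
  have hTc : Continuous T := by
    rw [hT]
    fun_prop
  have hT1 : ∀ R, |T R| ≤ 1 := fun R => by
    rw [hT]
    exact abs_cos_le_one _
  have h2' : κ / 2 < X⁻¹ * ∫ R in Icc X (2 * X), M R * T R := by
    rw [hM, hT]
    exact h2
  have iU : IntegrableOn (fun R => |Ep H (0, 0) w R / sqrt R|) (Icc X (2 * X)) := mu_int hO hX1 (φ := fun y => |y|) continuous_abs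
  have iMT : IntegrableOn (fun R => M R * T R) (Icc X (2 * X)) := (hMc.mul hTc).integrableOn_Icc
  have iV : IntegrableOn (fun R => κ / 8 + 2 / κ * (V R / X)) (Icc X (2 * X)) := by
    have h3 : IntegrableOn (fun _ : ℝ => κ / 8) (Icc X (2 * X)) := continuousOn_const.integrableOn_compact isCompact_Icc
    exact h3.add ((v1.div_const X).const_mul _)
  -- the pointwise inequality
  have hpt : ∀ R ∈ Icc X (2 * X), M R * T R ≤ |Ep H (0, 0) w R / sqrt R| + (κ / 8 + 2 / κ * (V R / X)) := by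
    intro R hR
    have hR0 : 0 < R := by linarith [hR.1]
    have hs : 0 < sqrt R := Real.sqrt_pos.2 hR0
    obtain ⟨y, hy⟩ : ∃ y : ℝ, y = Ep H (0, 0) w R / sqrt R := ⟨_, rfl⟩
    have hV0 : 0 ≤ V R := (by positivity : (0 : ℝ) ≤ _).trans (v2 R hR (0, 0))
    have hq : |y - M R| ^ 2 ≤ V R / X := by
      have h4 : |y - M R| ^ 2 ≤ V R / R := by
        have e2 : y - M R = (cntc H (0 - R * w.1, 0 - R * w.2) R - area H * R ^ 2 -
            sqrt R * Mx H (2 ^ n0) R (0 - R * w.1, 0 - R * w.2)) / sqrt R := by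
          rw [hy, hM]
          unfold Ep
          field_simp
        rw [e2, abs_div, div_pow, abs_of_pos hs, Real.sq_sqrt hR0.le]
        exact div_le_div_of_nonneg_right (v2 R hR _) hR0.le
      exact h4.trans (div_le_div_of_nonneg_left hV0 hX0 hR.1)
    rw [← hy]
    have h3 : M R * T R ≤ |M R| := by
      have h4 := le_abs_self (M R * T R)
      rw [abs_mul] at h4
      exact h4.trans (mul_le_of_le_one_right (abs_nonneg _) (hT1 R))
    have h4 : |M R| ≤ |y| + |y - M R| := by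
      have h5 := abs_sub_abs_le_abs_sub (M R) y
      rw [abs_sub_comm] at h5
      linarith
    have h5 : |y - M R| ≤ κ / 8 + 2 / κ * |y - M R| ^ 2 := by
      obtain ⟨z, hz⟩ : ∃ z : ℝ, z = |y - M R| := ⟨_, rfl⟩
      rw [← hz]
      have h6 : κ / 8 + 2 / κ * z ^ 2 - z = 2 / κ * (z - κ / 4) ^ 2 := by
        field_simp
        ring
      have h7 : 0 ≤ 2 / κ * (z - κ / 4) ^ 2 := by positivity
      linarith
    have h6 : 2 / κ * |y - M R| ^ 2 ≤ 2 / κ * (V R / X) := mul_le_mul_of_nonneg_left hq (by positivity)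
    linarith
  have h3 : ∫ R in Icc X (2 * X), M R * T R ≤ (∫ R in Icc X (2 * X), |Ep H (0, 0) w R / sqrt R|) + ∫ R in Icc X (2 * X), (κ / 8 + 2 / κ * (V R / X)) := by
    rw [← integral_add iU iV]
    exact setIntegral_mono_on iMT (iU.add iV) measurableSet_Icc hpt
  have h4 : ∫ R in Icc X (2 * X), (κ / 8 + 2 / κ * (V R / X)) ≤ κ / 4 * X := by
    have hconst : IntegrableOn (fun _ : ℝ => κ / 8) (Icc X (2 * X)) := continuousOn_const.integrableOn_compact isCompact_Icc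
    have e7 : ∫ R in Icc X (2 * X), V R / X = (∫ R in Icc X (2 * X), V R) / X := integral_div _ _
    rw [integral_add hconst ((v1.div_const X).const_mul _), integral_const_mul, e7, setIntegral_const,
      Real.volume_real_Icc_of_le (by linarith), smul_eq_mul]
    have h5 : 2 / κ * ((∫ R in Icc X (2 * X), V R) / X) ≤ 2 / κ * (κ ^ 2 / 16 * X ^ 2 / X) :=
      mul_le_mul_of_nonneg_left (div_le_div_of_nonneg_right v3 hX0.le) (by positivity)
    have h6 : 2 / κ * (κ ^ 2 / 16 * X ^ 2 / X) = κ / 8 * X := by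
      field_simp
      norm_num
    linarith
  unfold mu
  have h5 : X⁻¹ * ∫ R in Icc X (2 * X), M R * T R ≤ X⁻¹ * ((∫ R in Icc X (2 * X), |Ep H (0, 0) w R / sqrt R|) + κ / 4 * X) :=
    mul_le_mul_of_nonneg_left (h3.trans (by linarith)) (inv_pos.2 hX0).le
  have h6 : X⁻¹ * ((∫ R in Icc X (2 * X), |Ep H (0, 0) w R / sqrt R|) + κ / 4 * X) =
      X⁻¹ * (∫ R in Icc X (2 * X), |Ep H (0, 0) w R / sqrt R|) + κ / 4 := by
    field_simp
  linarith

/-- the positivity of the first moment of the law -/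
theorem law_of_lawU {U : ℝ → ℝ} {P : ℝ} (hP : 1 < P) (h : LawU U P) {b X₀ : ℝ} (hb : 0 < b)
    (hlow : ∀ X : ℝ, X₀ ≤ X → b ≤ mu U (fun y => |y|) X) : Law U P := by
  obtain ⟨ν, h1, h2⟩ := h
  refine ⟨ν, h1, ?_, h2⟩
  obtain ⟨-, h3⟩ := h2 (fun y => |y|) continuous_abs 1 zero_le_one hP 1 (fun y => by
    rw [Real.rpow_one, one_mul, abs_abs]
    linarith [abs_nonneg y])
  refine lt_of_lt_of_le hb (le_of_forall_pos_le_add fun e he => ?_)
  obtain ⟨X₁, -, h4⟩ := h3 e he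
  have h5 := (abs_le.1 (h4 (max X₀ X₁) (le_max_right _ _))).2
  have h6 := hlow (max X₀ X₁) (le_max_left _ _)
  unfold mu at h6
  linarith

/-- almost every lattice: the law at the centre `0` is not the mass at `0` -/
theorem law0_of {H : ℝ → ℝ} (h2 : ContDiff ℝ 2 H) (hp : Function.Periodic H (2 * π)) (hr : ∀ t, 0 < H t + deriv (deriv H) t) {q P : ℝ} (hq : 2 ≤ q)
    (hqP : q < P) (h : ∀ v : ℝ × ℝ, IsSupp (shf H v) → ∀ᵐ f : Fr, 0 < fdet f → BlkAll (Hf (shf H v) f) q P) :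
    ∀ᵐ ab : Fr, fdet ab ≠ 0 ∧ Law (fun R => lcnt ab H 0 R - area H * R ^ 2 / abs (fdet ab)) P := by
  obtain ⟨v, hv⟩ := Pool.Agent.Helper22.OV.exists_shift h2 hp hr
  have h1 := ae_dual (h v hv)
  have h3 : ∀ᵐ ab : Fr, 0 < fdet ab → Law (fun R => lcnt ab H 0 R - area H * R ^ 2 / abs (fdet ab)) P := by
    filter_upwards [h1] with ab h4 hd
    have hdl : fdet (dl ab) ≠ 0 := by
      rw [fdet_dl hd.ne']
      positivity
    obtain ⟨w, hw⟩ : ∃ w : ℝ × ℝ, w = ((dl ab).1.1 * v.1 + (dl ab).1.2 * v.2, (dl ab).2.1 * v.1 + (dl ab).2.2 * v.2) := ⟨_, rfl⟩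
    have hS := Hf_isSupp hv hdl
    have h5 := lawP_blk hS hq hqP (h4 hd) (0, 0) w
    obtain ⟨e0, he0, he⟩ := (h4 hd) q le_rfl hqP
    obtain ⟨b, hb, X₀, -, hlow⟩ := ep0_low hS.smooth hS.per hS.rho_pos
      (Pool.Agent.Helper60.LMA.htail_ge hS hq (lt_min he0 (by norm_num : (0 : ℝ) < 1 / 8)) (min_le_right _ _)
        (he _ (lt_min he0 (by norm_num)) (min_le_left _ _)) 1) w
    have e : (fun R => lcnt ab H 0 R - area H * R ^ 2 / abs (fdet ab)) = Ep (Hf (shf H v) (dl ab)) (0, 0) w := by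
      funext R
      rw [← lcnt_shf H ab v 0 R, ← Pool.Agent.Helper22.OV.area_shf (H := H) v, err_dl_s hv.per hd.ne']
      unfold Ep
      rw [hw]
      simp only [Prod.fst_zero, Prod.snd_zero]
      congr 3 <;> ring
    rw [e]
    exact law_of_lawU (by linarith) h5 hb hlow
  have h4 := ae_swap h3
  filter_upwards [h3, h4, ae_det] with ab h5 h6 h7
  refine ⟨h7, ?_⟩
  rcases lt_or_gt_of_ne h7 with h8 | h8
  · have e : fdet (ab.2, ab.1) = -fdet ab := by
      unfold fdet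
      simp only
      ring
    have h9 := h6 (by rw [e]; linarith)
    have e2 : (fun R => lcnt ab H 0 R - area H * R ^ 2 / abs (fdet ab)) =
        fun R => lcnt (ab.2, ab.1) H 0 R - area H * R ^ 2 / abs (fdet (ab.2, ab.1)) := by
      funext R
      rw [e, abs_neg, lcnt_swap]
    rw [e2]
    exact h9
  · exact h5 h8

end Pool.Agent.Helper33.LMA
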