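import Pool.Agent.Helper75.TW.A3
import Pool.Agent.Helper92.LA.A3

/-!
# LMA-X1 (MP_fb29e9_nt): positive-definite domination of the moments

`m20`, `m12` of the sums with coefficients `ee (r * x_k)` are finite sums of exponentials in `r` with nonnegative
coefficients; so the mean over an interval is dominated by the mean over an interval centred at `0`.
-/

open MeasureTheory Real Set Filter Topology

set_option autoImplicit false

namespace Pool.Agent.Helper33.LMA

open Pool.Agent.Helper22.AE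
open Pool.Agent.Helper92.GC
open Pool.Agent.Helper22.LP (Fr fk)

/-- the exponentials -/
noncomputable def Mo : Submonoid (ℝ → ℂ) where
  carrier := {g | ∃ φ : ℝ, g = fun r => ee (r * φ)}
  one_mem' := ⟨0, by
    funext r
    simp [ee_zero]⟩
  mul_mem' := by
    rintro a b ⟨φ, rfl⟩ ⟨ψ, rfl⟩
    refine ⟨φ + ψ, ?_⟩
    funext r
    show ee (r * φ) * ee (r * ψ) = _
    rw [← ee_add]
    congr 1
    ring

/-- the finite sums of exponentials -/
noncomputable def Es : Subsemiring (ℝ → ℂ) := Mo.subsemiringClosure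

theorem es_ind {P : (ℝ → ℂ) → Prop} (h0 : P 0) (ha : ∀ a b, P a → P b → P (a + b))
    (he : ∀ φ : ℝ, P (fun r => ee (r * φ))) {g : ℝ → ℂ} (hg : g ∈ Es) : P g := by
  have h1 : g ∈ (Mo.subsemiringClosure : Set (ℝ → ℂ)) := hg
  rw [Submonoid.subsemiringClosure_coe] at h1
  refine AddSubmonoid.closure_induction (motive := fun g _ => P g) ?_ h0 (fun a b _ _ hA hB => ha a b hA hB) h1
  rintro _ ⟨φ, rfl⟩
  exact he φ

theorem es_ee (φ : ℝ) : (fun r => ee (r * φ)) ∈ Es := by
  have h1 : (fun r => ee (r * φ)) ∈ (Mo.subsemiringClosure : Set (ℝ → ℂ)) := by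
    rw [Submonoid.subsemiringClosure_coe]
    exact AddSubmonoid.subset_closure ⟨φ, rfl⟩
  exact h1

theorem es_cont {g : ℝ → ℂ} (hg : g ∈ Es) : Continuous g := by
  refine es_ind (P := fun g => Continuous g) continuous_zero (fun a b h1 h2 => h1.add h2) (fun φ => ?_) hg
  exact ee_cont.comp (continuous_id.mul continuous_const)

theorem es_conj {g : ℝ → ℂ} (hg : g ∈ Es) : (fun r => (starRingEnd ℂ) (g r)) ∈ Es := by
  refine es_ind (P := fun g => (fun r => (starRingEnd ℂ) (g r)) ∈ Es) ?_ ?_ ?_ hg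
  · have h1 : (fun r : ℝ => (starRingEnd ℂ) ((0 : ℝ → ℂ) r)) = 0 := by
      funext r
      simp
    rw [h1]
    exact Es.zero_mem
  · intro a b ha hb
    have h1 : (fun r : ℝ => (starRingEnd ℂ) ((a + b) r)) =
        (fun r => (starRingEnd ℂ) (a r)) + (fun r => (starRingEnd ℂ) (b r)) := by
      funext r
      simp
    rw [h1]
    exact Es.add_mem ha hb
  · intro φ
    have h1 : (fun r : ℝ => (starRingEnd ℂ) (ee (r * φ))) = fun r => ee (r * (-φ)) := by
      funext r
      rw [← ee_neg]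
      congr 1
      ring
    rw [h1]
    exact es_ee _

theorem es_neg {g : ℝ → ℂ} (hg : g ∈ Es) (r : ℝ) : g (-r) = (starRingEnd ℂ) (g r) := by
  refine es_ind (P := fun g => g (-r) = (starRingEnd ℂ) (g r)) ?_ ?_ ?_ hg
  · simp
  · intro a b ha hb
    simp only [Pi.add_apply, map_add]
    rw [ha, hb]
  · intro φ
    show ee (-r * φ) = (starRingEnd ℂ) (ee (r * φ))
    rw [← ee_neg]
    congr 1
    ring

theorem es_sum {κ : Type} (s : Finset κ) (g : κ → ℝ → ℂ) (h : ∀ k ∈ s, g k ∈ Es) :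
    (fun r => ∑ k ∈ s, g k r) ∈ Es := by
  have h1 : (fun r => ∑ k ∈ s, g k r) = ∑ k ∈ s, g k := by
    funext r
    rw [Finset.sum_apply]
  rw [h1]
  exact Es.sum_mem h

theorem es_mul {a b : ℝ → ℂ} (ha : a ∈ Es) (hb : b ∈ Es) : (fun r => a r * b r) ∈ Es := Es.mul_mem ha hb

/-! ### the triangle weight -/

theorem tri_half {A ω : ℝ} (hA : 0 < A) : 0 ≤ ∫ u in (0 : ℝ)..A, (1 - u / A) * cos (ω * u) := by
  rcases eq_or_ne ω 0 with rfl | hω
  · simp only [zero_mul, cos_zero, mul_one]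
    refine intervalIntegral.integral_nonneg hA.le fun u hu => ?_
    have h1 : u / A ≤ 1 := (div_le_one hA).2 hu.2
    linarith
  · have h1 : ∀ u ∈ uIcc (0 : ℝ) A, HasDerivAt (fun u : ℝ => (1 - u / A) * (sin (ω * u) / ω) - cos (ω * u) / (ω ^ 2 * A))
        ((1 - u / A) * cos (ω * u)) u := by
      intro u _
      have h2 : HasDerivAt (fun u : ℝ => ω * u) ω u := by
        simpa using (hasDerivAt_id u).const_mul ω
      have h3 : HasDerivAt (fun u : ℝ => sin (ω * u)) (cos (ω * u) * ω) u := h2.sin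
      have h4 : HasDerivAt (fun u : ℝ => cos (ω * u)) (-sin (ω * u) * ω) u := h2.cos
      have h5 : HasDerivAt (fun u : ℝ => 1 - u / A) (-(1 / A)) u := by
        have h6 := (hasDerivAt_id u).div_const A
        have h7 := h6.const_sub 1
        simpa using h7
      have h8 := (h5.mul (h3.div_const ω)).sub (h4.div_const (ω ^ 2 * A))
      refine h8.congr_deriv ?_
      field_simp
      ring
    rw [intervalIntegral.integral_eq_sub_of_hasDerivAt h1 (by
      refine Continuous.intervalIntegrable ?_ _ _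
      fun_prop)]
    have h9 : (1 : ℝ) - A / A = 0 := by
      rw [div_self hA.ne', sub_self]
    rw [h9]
    simp only [zero_mul, zero_sub, mul_zero, sin_zero, zero_div, cos_zero]
    have h10 : cos (ω * A) ≤ 1 := cos_le_one _
    have h11 : 0 < ω ^ 2 * A := by positivity
    have h12 : cos (ω * A) / (ω ^ 2 * A) ≤ 1 / (ω ^ 2 * A) := div_le_div_of_nonneg_right h10 h11.le
    linarith

theorem tri_cont {F : ℝ → ℝ} (hF : Continuous F) (A : ℝ) : Continuous (fun u : ℝ => (1 - |u| / A) * F u) := by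
  have h1 : Continuous (fun u : ℝ => |u|) := continuous_abs
  fun_prop

theorem tri_cos {A ω : ℝ} (hA : 0 < A) : 0 ≤ ∫ u in (-A)..A, (1 - |u| / A) * cos (ω * u) := by
  have hc : Continuous (fun u : ℝ => (1 - |u| / A) * cos (ω * u)) := tri_cont (by fun_prop) A
  rw [← intervalIntegral.integral_add_adjacent_intervals (hc.intervalIntegrable (-A) 0) (hc.intervalIntegrable 0 A)]
  have h1 : ∫ u in (0 : ℝ)..A, (1 - |u| / A) * cos (ω * u) = ∫ u in (0 : ℝ)..A, (1 - u / A) * cos (ω * u) := by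
    refine intervalIntegral.integral_congr fun u hu => ?_
    rw [uIcc_of_le hA.le] at hu
    rw [abs_of_nonneg hu.1]
  have h2 : ∫ u in (-A)..0, (1 - |u| / A) * cos (ω * u) = ∫ u in (0 : ℝ)..A, (1 - u / A) * cos (ω * u) := by
    have h3 := intervalIntegral.integral_comp_neg (a := 0) (b := A) (fun u : ℝ => (1 - |u| / A) * cos (ω * u))
    rw [neg_zero] at h3
    rw [← h3]
    refine intervalIntegral.integral_congr fun u hu => ?_
    rw [uIcc_of_le hA.le] at hu
    rw [abs_neg, abs_of_nonneg hu.1, mul_neg, cos_neg]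
  rw [h1, h2]
  have h4 := tri_half (ω := ω) hA
  linarith

theorem tri_sin {A ω : ℝ} : ∫ u in (-A)..A, (1 - |u| / A) * sin (ω * u) = 0 := by
  have h3 := intervalIntegral.integral_comp_neg (a := -A) (b := A) (fun u : ℝ => (1 - |u| / A) * sin (ω * u))
  rw [neg_neg] at h3
  have h4 : ∫ u in (-A)..A, (1 - |-u| / A) * sin (ω * -u) = -∫ u in (-A)..A, (1 - |u| / A) * sin (ω * u) := by
    rw [← intervalIntegral.integral_neg]
    refine intervalIntegral.integral_congr fun u _ => ?_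
    rw [abs_neg, mul_neg, sin_neg]
    ring
  rw [h4] at h3
  linarith

theorem re_ee (x : ℝ) : (ee x).re = cos (2 * π * x) := by
  unfold ee
  exact Complex.exp_ofReal_mul_I_re _

/-- the triangle mean of a finite sum of exponentials is largest at the origin -/
theorem tri_es {g : ℝ → ℂ} (hg : g ∈ Es) {A : ℝ} (hA : 0 < A) (r₀ : ℝ) :
    ∫ u in (-A)..A, (1 - |u| / A) * (g (r₀ + u)).re ≤ ∫ u in (-A)..A, (1 - |u| / A) * (g u).re := by
  have h0 : Continuous g ∧ ∫ u in (-A)..A, (1 - |u| / A) * (g (r₀ + u)).re ≤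
      ∫ u in (-A)..A, (1 - |u| / A) * (g u).re := by
    refine es_ind (P := fun g => Continuous g ∧ ∫ u in (-A)..A, (1 - |u| / A) * (g (r₀ + u)).re ≤
      ∫ u in (-A)..A, (1 - |u| / A) * (g u).re) ?_ ?_ ?_ hg
    · refine ⟨continuous_zero, ?_⟩
      simp
    · rintro a b ⟨ha, hA'⟩ ⟨hb, hB⟩
      refine ⟨ha.add hb, ?_⟩
      have h1 : ∀ (x : ℝ), IntervalIntegrable (fun u : ℝ => (1 - |u| / A) * (a (x + u)).re) volume (-A) A := fun x =>
        (tri_cont (F := fun u => (a (x + u)).re) (Complex.continuous_re.comp (ha.comp (continuous_const.add continuous_id))) A).intervalIntegrable _ _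
      have h2 : ∀ (x : ℝ), IntervalIntegrable (fun u : ℝ => (1 - |u| / A) * (b (x + u)).re) volume (-A) A := fun x =>
        (tri_cont (F := fun u => (b (x + u)).re) (Complex.continuous_re.comp (hb.comp (continuous_const.add continuous_id))) A).intervalIntegrable _ _
      have h3 : ∀ x : ℝ, ∫ u in (-A)..A, (1 - |u| / A) * ((a + b) (x + u)).re =
          (∫ u in (-A)..A, (1 - |u| / A) * (a (x + u)).re) + ∫ u in (-A)..A, (1 - |u| / A) * (b (x + u)).re := by
        intro x
        rw [← intervalIntegral.integral_add (h1 x) (h2 x)]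
        refine intervalIntegral.integral_congr fun u _ => ?_
        simp only [Pi.add_apply, Complex.add_re]
        ring
      have h4 := h3 r₀
      have h5 := h3 0
      simp only [zero_add] at h5
      rw [h4, h5]
      exact add_le_add hA' hB
    · intro φ
      refine ⟨ee_cont.comp (continuous_id.mul continuous_const), ?_⟩
      simp only [re_ee]
      have h1 : ∀ u : ℝ, (1 - |u| / A) * cos (2 * π * ((r₀ + u) * φ)) =
          cos (2 * π * (r₀ * φ)) * ((1 - |u| / A) * cos ((2 * π * φ) * u)) -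
            sin (2 * π * (r₀ * φ)) * ((1 - |u| / A) * sin ((2 * π * φ) * u)) := by
        intro u
        have h2 : 2 * π * ((r₀ + u) * φ) = 2 * π * (r₀ * φ) + (2 * π * φ) * u := by ring
        rw [h2, cos_add]
        ring
      simp only [h1]
      have h3 : Continuous (fun u : ℝ => (1 - |u| / A) * cos ((2 * π * φ) * u)) := tri_cont (by fun_prop) A
      have h4 : Continuous (fun u : ℝ => (1 - |u| / A) * sin ((2 * π * φ) * u)) := tri_cont (by fun_prop) A
      have h3' : IntervalIntegrable (fun u : ℝ => cos (2 * π * (r₀ * φ)) * ((1 - |u| / A) * cos ((2 * π * φ) * u)))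
          volume (-A) A := (continuous_const.mul h3).intervalIntegrable _ _
      have h4' : IntervalIntegrable (fun u : ℝ => sin (2 * π * (r₀ * φ)) * ((1 - |u| / A) * sin ((2 * π * φ) * u)))
          volume (-A) A := (continuous_const.mul h4).intervalIntegrable _ _
      rw [intervalIntegral.integral_sub h3' h4', intervalIntegral.integral_const_mul,
        intervalIntegral.integral_const_mul, tri_sin, mul_zero, sub_zero]
      have h5 : ∫ u in (-A)..A, (1 - |u| / A) * cos (2 * π * (u * φ)) =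
          ∫ u in (-A)..A, (1 - |u| / A) * cos ((2 * π * φ) * u) := by
        refine intervalIntegral.integral_congr fun u _ => ?_
        show (1 - |u| / A) * cos (2 * π * (u * φ)) = (1 - |u| / A) * cos ((2 * π * φ) * u)
        congr 2
        ring
      rw [h5]
      have h6 := tri_cos (ω := 2 * π * φ) hA
      have h7 : cos (2 * π * (r₀ * φ)) ≤ 1 := cos_le_one _
      nlinarith
  exact h0.2

/-- the domination -/
theorem dom_gen {m : ℝ → ℝ} {g : ℝ → ℂ} (hg : g ∈ Es) (hm : ∀ r, ((m r : ℝ) : ℂ) = g r) (h0 : ∀ r, 0 ≤ m r)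
    (r₀ Y : ℝ) (hY : 0 < Y) :
    ∫ r in Icc (r₀ - Y) (r₀ + Y), m r ≤ 2 * ∫ r in Icc (-(2 * Y)) (2 * Y), m r := by
  have hre : ∀ r, m r = (g r).re := fun r => by
    rw [← hm r, Complex.ofReal_re]
  have hmc : Continuous m := by
    have h1 : m = fun r => (g r).re := funext hre
    rw [h1]
    exact Complex.continuous_re.comp (es_cont hg)
  have h2Y : 0 < 2 * Y := by linarith
  rw [integral_Icc_eq_integral_Ioc, integral_Icc_eq_integral_Ioc, ← intervalIntegral.integral_of_le (by linarith),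
    ← intervalIntegral.integral_of_le (by linarith)]
  have hsh : Continuous (fun u : ℝ => m (r₀ + u)) := hmc.comp (continuous_const.add continuous_id)
  have h1 : ∫ r in (r₀ - Y)..(r₀ + Y), m r = ∫ u in (-Y)..Y, m (r₀ + u) := by
    have h2 := intervalIntegral.integral_comp_add_left (a := -Y) (b := Y) m r₀
    rw [h2]
    congr 1
  have hT : Continuous (fun u : ℝ => (1 - |u| / (2 * Y)) * m (r₀ + u)) := tri_cont hsh _
  have hT0 : Continuous (fun u : ℝ => (1 - |u| / (2 * Y)) * m u) := tri_cont hmc _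
  have h2 : ∫ u in (-Y)..Y, m (r₀ + u) ≤ 2 * ∫ u in (-Y)..Y, (1 - |u| / (2 * Y)) * m (r₀ + u) := by
    rw [← intervalIntegral.integral_const_mul]
    refine intervalIntegral.integral_mono_on (by linarith) (hsh.intervalIntegrable _ _)
      ((continuous_const.mul hT).intervalIntegrable _ _) fun u hu => ?_
    have h3 : |u| ≤ Y := abs_le.2 hu
    have h4 : |u| / (2 * Y) ≤ 1 / 2 := by
      rw [div_le_iff₀ h2Y]
      linarith
    have h5 := h0 (r₀ + u)
    nlinarith
  have h3 : ∫ u in (-Y)..Y, (1 - |u| / (2 * Y)) * m (r₀ + u) ≤ ∫ u in (-(2 * Y))..(2 * Y), (1 - |u| / (2 * Y)) * m (r₀ + u) := by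
    rw [intervalIntegral.integral_of_le (by linarith), intervalIntegral.integral_of_le (by linarith)]
    refine setIntegral_mono_set ((hT.intervalIntegrable (-(2 * Y)) (2 * Y)).1) ?_ ?_
    · refine (ae_restrict_iff' measurableSet_Ioc).2 (Eventually.of_forall fun u hu => ?_)
      have h3 : |u| ≤ 2 * Y := abs_le.2 ⟨hu.1.le, hu.2⟩
      have h4 : |u| / (2 * Y) ≤ 1 := (div_le_one h2Y).2 h3
      exact mul_nonneg (by linarith) (h0 _)
    · exact (Ioc_subset_Ioc (by linarith) (by linarith)).eventuallyLE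
  have h4 : ∫ u in (-(2 * Y))..(2 * Y), (1 - |u| / (2 * Y)) * m (r₀ + u) ≤
      ∫ u in (-(2 * Y))..(2 * Y), (1 - |u| / (2 * Y)) * m u := by
    have h5 := tri_es hg h2Y r₀
    simp only [← hre] at h5
    exact h5
  have h5 : ∫ u in (-(2 * Y))..(2 * Y), (1 - |u| / (2 * Y)) * m u ≤ ∫ u in (-(2 * Y))..(2 * Y), m u := by
    refine intervalIntegral.integral_mono_on (by linarith) (hT0.intervalIntegrable _ _) (hmc.intervalIntegrable _ _)
      fun u hu => ?_
    have h6 : 0 ≤ |u| / (2 * Y) := by positivity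
    have h7 := h0 u
    nlinarith
  rw [h1]
  linarith

theorem es_even {m : ℝ → ℝ} {g : ℝ → ℂ} (hg : g ∈ Es) (hm : ∀ r, ((m r : ℝ) : ℂ) = g r) (r : ℝ) : m (-r) = m r := by
  have h1 : ((m (-r) : ℝ) : ℂ) = ((m r : ℝ) : ℂ) := by
    rw [hm, es_neg hg, ← hm, Complex.conj_ofReal]
  exact_mod_cast h1

/-- a sum of squares of absolute values of finite sums of exponentials -/
theorem es_sq {κ : Type} (s : Finset κ) (c : κ → ℝ → ℂ) (h : ∀ k ∈ s, c k ∈ Es) :
    ∃ g ∈ Es, ∀ r, ((∑ k ∈ s, ‖c k r‖ ^ 2 : ℝ) : ℂ) = g r := by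
  refine ⟨fun r => ∑ k ∈ s, c k r * (starRingEnd ℂ) (c k r), es_sum s _ fun k hk => es_mul (h k hk) (es_conj (h k hk)), ?_⟩
  intro r
  push_cast
  refine Finset.sum_congr rfl fun k _ => ?_
  rw [Complex.mul_conj, Complex.normSq_eq_norm_sq]
  push_cast
  rfl

/-! ### the twentieth moment -/

theorem cf_es (S : Finset (ℤ × ℤ)) (x : ℤ × ℤ → ℝ) (n : ℕ) :
    ∀ l, (fun r => Helper75.TW.cf S (fun k => ee (r * x k)) n l) ∈ Es := by
  induction n with
  | zero => exact fun l => Es.one_mem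
  | succ n ih =>
    intro l
    show (fun r => ∑ k ∈ _, _) ∈ Es
    exact es_sum _ (fun (k : (ℤ × ℤ) × (ℤ × ℤ)) r => Helper75.TW.cf S (fun k => ee (r * x k)) n k.1 * ee (r * x k.2))
      fun k _ => es_mul (ih k.1) (es_ee _)

theorem m20_es (S : Finset (ℤ × ℤ)) (x : ℤ × ℤ → ℝ) :
    ∃ g ∈ Es, ∀ r : ℝ, ((Helper75.TW.m20 S (fun k => ee (r * x k)) : ℝ) : ℂ) = g r := by
  obtain ⟨g, hg, h⟩ := es_sq (Helper75.TW.SP S 10) (fun l r => Helper75.TW.cf S (fun k => ee (r * x k)) 10 l)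
    fun l _ => cf_es S x 10 l
  refine ⟨g, hg, fun r => ?_⟩
  rw [← h r, Helper75.TW.m20_eq]

theorem dom20 (f : Fr) (h : ℝ × ℝ → ℝ) (N : ℕ) (r₀ Y : ℝ) (hY : 0 < Y) :
    ∫ r in Icc (r₀ - Y) (r₀ + Y), Helper75.TW.m20 (sqa N) (fun k => ee (r * h (fk f k))) ≤
      2 * ∫ r in Icc (-(2 * Y)) (2 * Y), Helper75.TW.m20 (sqa N) (fun k => ee (r * h (fk f k))) := by
  obtain ⟨g, hg, hm⟩ := m20_es (sqa N) (fun k => h (fk f k))
  exact dom_gen hg hm (fun r => Helper75.TW.m20_nonneg _ _) r₀ Y hY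

theorem even20 (f : Fr) (h : ℝ × ℝ → ℝ) (N : ℕ) (r : ℝ) :
    Helper75.TW.m20 (sqa N) (fun k => ee (-r * h (fk f k))) = Helper75.TW.m20 (sqa N) (fun k => ee (r * h (fk f k))) := by
  obtain ⟨g, hg, hm⟩ := m20_es (sqa N) (fun k => h (fk f k))
  exact es_even (m := fun r => Helper75.TW.m20 (sqa N) (fun k => ee (r * h (fk f k)))) hg hm r

/-! ### the twelfth moment -/

theorem cub_es (S : Finset (ℤ × ℤ)) (x : ℤ × ℤ → ℝ) (l : ℤ × ℤ) :
    (fun r => cub S (fun k => ee (r * x k)) l) ∈ Es := by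
  unfold cub
  refine es_sum _ (fun (k : (ℤ × ℤ) × (ℤ × ℤ) × (ℤ × ℤ)) r => ee (r * x k.1) * ee (r * x k.2.1) * ee (r * x k.2.2)) fun k _ => ?_
  exact es_mul (es_mul (es_ee _) (es_ee _)) (es_ee _)

theorem six_es (S : Finset (ℤ × ℤ)) (x : ℤ × ℤ → ℝ) (l : ℤ × ℤ) :
    (fun r => Helper92.DT.six S (fun k => ee (r * x k)) l) ∈ Es := by
  unfold Helper92.DT.six
  refine es_sum _ (fun (k : (ℤ × ℤ) × (ℤ × ℤ)) r => cub S (fun k => ee (r * x k)) k.1 * cub S (fun k => ee (r * x k)) k.2) fun k _ => ?_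
  exact es_mul (cub_es S x _) (cub_es S x _)

theorem m12_es (S : Finset (ℤ × ℤ)) (x : ℤ × ℤ → ℝ) :
    ∃ g ∈ Es, ∀ r : ℝ, ((Helper92.DT.m12 S (fun k => ee (r * x k)) : ℝ) : ℂ) = g r := by
  obtain ⟨g, hg, h⟩ := es_sq (Helper92.DT.S6 S) (fun l r => Helper92.DT.six S (fun k => ee (r * x k)) l)
    fun l _ => six_es S x l
  refine ⟨g, hg, fun r => ?_⟩
  rw [← h r, Helper92.DT.m12_eq]

theorem dom12 (f : Fr) (h : ℝ × ℝ → ℝ) (N : ℕ) (r₀ Y : ℝ) (hY : 0 < Y) :
    ∫ r in Icc (r₀ - Y) (r₀ + Y), Helper92.DT.m12 (sqa N) (fun k => ee (r * h (fk f k))) ≤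
      2 * ∫ r in Icc (-(2 * Y)) (2 * Y), Helper92.DT.m12 (sqa N) (fun k => ee (r * h (fk f k))) := by
  obtain ⟨g, hg, hm⟩ := m12_es (sqa N) (fun k => h (fk f k))
  exact dom_gen hg hm (fun r => Helper92.DT.m12_nonneg _ _) r₀ Y hY

theorem even12 (f : Fr) (h : ℝ × ℝ → ℝ) (N : ℕ) (r : ℝ) :
    Helper92.DT.m12 (sqa N) (fun k => ee (-r * h (fk f k))) = Helper92.DT.m12 (sqa N) (fun k => ee (r * h (fk f k))) := by
  obtain ⟨g, hg, hm⟩ := m12_es (sqa N) (fun k => h (fk f k))
  exact es_even (m := fun r => Helper92.DT.m12 (sqa N) (fun k => ee (r * h (fk f k)))) hg hm r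

end Pool.Agent.Helper33.LMA
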